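import Pool.Agent.Helper18.ND.KEYa

/-!
# ND: part KEY, the estimate for a fixed level
-/

set_option autoImplicit false

open MeasureTheory Set Filter Topology
open scoped ENNReal NNReal

namespace Pool.Agent.Helper18.ND

open Pool.Agent.Helper28.ND Pool.Agent.H62.ND

/-- the pointwise estimate -/
theorem pw {d : ℕ} (i : Fin d) {M0 B y w : ℝ} (hM : |y| ≤ M0) (a v : Fin d → ℝ)
    (ha : ∀ j, |a j * v j| ≤ B * |v j|) :
    (∑ j, a j * v j) * y - w * v i - ∑ j, v j ^ 2 ≤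
      (d : ℝ) * M0 ^ 2 / 2 * B ^ 2 + 1 / 2 * w ^ 2 := by
  have hM0 : 0 ≤ M0 := (abs_nonneg _).trans hM
  have h1 : (∑ j, a j * v j) * y ≤ ∑ j, (v j ^ 2 / 2 + M0 ^ 2 * B ^ 2 / 2) := by
    rw [Finset.sum_mul]
    refine Finset.sum_le_sum fun j _ => ?_
    calc a j * v j * y ≤ |a j * v j * y| := le_abs_self _
      _ = |a j * v j| * |y| := abs_mul _ _
      _ ≤ (B * |v j|) * M0 := by
          apply mul_le_mul (ha j) hM (abs_nonneg _)
          exact (abs_nonneg _).trans (ha j)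
      _ ≤ v j ^ 2 / 2 + M0 ^ 2 * B ^ 2 / 2 := by
          rw [← sq_abs (v j)]
          nlinarith [sq_nonneg (|v j| - M0 * B)]
  have h2 : - (w * v i) ≤ 1 / 2 * w ^ 2 + v i ^ 2 / 2 := by
    nlinarith [sq_nonneg (w + v i)]
  have h3 : v i ^ 2 ≤ ∑ j, v j ^ 2 :=
    Finset.single_le_sum (f := fun j => v j ^ 2) (fun j _ => sq_nonneg _) (Finset.mem_univ i)
  rw [Finset.sum_add_distrib, ← Finset.sum_div, Finset.sum_const, Finset.card_univ,
    Fintype.card_fin, nsmul_eq_mul] at h1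
  nlinarith

theorem KEY.main (hPIC : S_PIC) (hGRAD : S_GRAD) (hMAX : S_MAX) (hKEY1 : S_KEY1) (hKEY2 : S_KEY2)
    (hKEY3 : S_KEY3) (hINTG : S_INTG) (hKB : S_KB) : S_KEY := by
  intro d T p q b u0 u hT hq hpq hDr hSol f i hf
  obtain ⟨g1, -, g3, g4, g5⟩ := hINTG d T p q b u0 u hT hq hpq hDr hSol
  obtain ⟨H, hH0, hH⟩ := bdd_pd hf i
  obtain ⟨Hf, hHf0, hHf⟩ := bdd_f hf
  obtain ⟨hs, e, he, hz⟩ := hf
  by_cases hTe : T ≤ 2 * e
  · refine ⟨0, le_rfl, fun K hK => ?_⟩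
    have hf0 : ∀ t, f t = fun _ => 0 := fun t => funext fun x => hz t (by
      by_contra hcon
      push Not at hcon
      linarith) x
    have h1 : ∀ t x, pd i (f t) x = 0 := by
      intro t x
      rw [hf0 t]
      unfold pd
      simp
    simp only [h1, mul_zero, integral_zero, abs_zero, zero_mul, zero_add]
    positivity
  push Not at hTe
  obtain ⟨S, hSdef⟩ : ∃ S : ℝ, S = 1 + T - e := ⟨_, rfl⟩
  have hS : 1 < S := by rw [hSdef]; linarith
  have hST : S < 1 + T := by rw [hSdef]; linarith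
  have hS0 : 0 < S := by linarith
  obtain ⟨C1, hC1, hgr⟩ := hGRAD d S H hS hH0
  obtain ⟨M0, hM0def⟩ : ∃ M0 : ℝ, M0 = H * (S + 1) := ⟨_, rfl⟩
  have hM0 : 0 ≤ M0 := by rw [hM0def]; positivity
  refine ⟨d * C1 + Real.sqrt d * M0, by positivity, fun K hK => ?_⟩
  have hKr : (1 : ℝ) ≤ (K : ℝ) := by exact_mod_cast hK
  have hdat := dat hs he hz i hH hDr.meas hDr.per (K := (K : ℝ)) (by linarith)
  rw [← hSdef] at hdat
  obtain ⟨c, hc⟩ : ∃ c, c = cc b S K := ⟨_, rfl⟩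
  rw [← hc] at hdat
  obtain ⟨h, hh⟩ : ∃ h : ℝ → (Fin d → ℝ) → ℝ, h = fun t x => pd i (f (t - 1)) x := ⟨_, rfl⟩
  rw [← hh] at hdat
  obtain ⟨v, hD⟩ := hPIC d S K H c h hS hdat
  have hgrad := hgr K c h v hKr hD
  have hmax := hMAX d S K H c h v hS hD
  have hsrc : Src S (FF c h v) := src_FF hD
  obtain ⟨bΦ, bV, hzS, -⟩ := hKB d S (FF c h v) hS0 hsrc
  have k2 := hKEY2 d S K H c h v hS hD
  obtain ⟨k31, k32⟩ := hKEY3 d T p b hT hDr g3 S K H c h v hS hST hD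
  have k1 := hKEY1 d T p q b u0 u hT hq hpq hDr hSol S K H c h v hS hST hD
  rw [← hM0def] at hmax
  have hv0 : ∀ t, S ≤ t → ∀ x j, v t x j = 0 := fun t ht x j => by
    rw [hD.eq]; exact (hzS t ht x).2 j
  have hF0 : ∀ t, S ≤ t → ∀ x, FF c h v t x = 0 := fun t ht x => hsrc.supp t (Or.inr ht) x
  have hFe : ∀ t x, FF c h v (t + 1) x = (∑ j, c (t + 1) x j * v (t + 1) x j) + pd i (f t) x := by
    intro t x
    unfold FF
    rw [hh]
    simp only [add_sub_cancel_right]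
  -- the field `c` and the field `b`
  obtain ⟨Bz, hBz⟩ : ∃ Bz : ℝ → (Fin d → ℝ) → ℝ, Bz = fun t x =>
    if (K : ℝ) < ‖b t x‖ then ‖b t x‖ else 0 := ⟨_, rfl⟩
  have hBz0 : ∀ t x, 0 ≤ Bz t x := by
    intro t x
    rw [hBz]
    dsimp only
    split_ifs
    · exact norm_nonneg _
    · exact le_rfl
  have hcb : ∀ t, 0 < t → ∀ x j, |(c (t + 1) x j - b t x j) * v (t + 1) x j|
      ≤ Bz t x * |v (t + 1) x j| := by
    intro t ht x j
    by_cases hSt : S ≤ t + 1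
    · rw [hv0 _ hSt]; simp
    · push Not at hSt
      rw [abs_mul]
      refine mul_le_mul_of_nonneg_right ?_ (abs_nonneg _)
      rw [hc, hBz]
      unfold cc
      simp only [add_sub_cancel_right]
      by_cases hbK : ‖b t x‖ ≤ K
      · rw [if_pos ⟨by linarith, hSt, hbK⟩, if_neg (not_lt.2 hbK)]
        simp
      · rw [if_neg (fun hh => hbK hh.2.2), if_pos (not_le.1 hbK)]
        simp only [Pi.zero_apply, zero_sub, abs_neg]
        rw [← Real.norm_eq_abs]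
        exact norm_le_pi_norm _ j
  -- measurability
  obtain ⟨I, hI⟩ : ∃ I : Set ℝ, I = Ioo (0 : ℝ) T := ⟨_, rfl⟩
  have hIm : MeasurableSet I := by rw [hI]; exact measurableSet_Ioo
  have hIf : volume I ≠ ⊤ := by rw [hI, Real.volume_Ioo]; exact ENNReal.ofReal_ne_top
  have hI0 : ∀ t ∈ I, 0 < t := fun t ht => by rw [hI] at ht; exact ht.1
  have mu : Measurable (U u) := hSol.meas
  have mb : Measurable (U b) := hDr.meas
  have mbi : ∀ j, Measurable (fun z : ℝ × (Fin d → ℝ) => b z.1 z.2 j) := fun j =>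
    (measurable_pi_apply j).comp mb
  have m0 : Measurable (fun z : ℝ × (Fin d → ℝ) => (z.1 + 1, z.2)) := by fun_prop
  have mv : ∀ j, Measurable (fun z : ℝ × (Fin d → ℝ) => v (z.1 + 1) z.2 j) := fun j =>
    ((measurable_pi_apply j).comp hD.measv).comp m0
  have mc : ∀ j, Measurable (fun z : ℝ × (Fin d → ℝ) => c (z.1 + 1) z.2 j) := fun j =>
    ((measurable_pi_apply j).comp hdat.measc).comp m0
  have mΦ : Measurable (fun z : ℝ × (Fin d → ℝ) => Phi S (FF c h v) (z.1 + 1) z.2) :=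
    bΦ.meas.comp m0
  have mp : Measurable (fun z : ℝ × (Fin d → ℝ) => pd i (f z.1) z.2) :=
    (Pool.Agent.Helper89.ND.smooth_pd hs.smooth i).continuous.measurable
  have mf : Measurable (fun z : ℝ × (Fin d → ℝ) => f z.1 z.2) := hs.smooth.continuous.measurable
  have mnb : Measurable (fun z : ℝ × (Fin d → ℝ) => ‖b z.1 z.2‖) := mb.norm
  have mB : Measurable (fun z : ℝ × (Fin d → ℝ) => Bz z.1 z.2) := by
    rw [hBz]
    exact Measurable.ite (measurableSet_lt measurable_const mnb) mnb measurable_const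
  have hBb : ∀ t x, Bz t x ≤ ‖b t x‖ := by
    intro t x
    rw [hBz]
    dsimp only
    split_ifs
    · exact le_rfl
    · exact norm_nonneg _
  obtain ⟨Bv', hBv'⟩ := hD.bv
  obtain ⟨Bv, hBv0, hBv⟩ : ∃ Bv : ℝ, 0 ≤ Bv ∧ ∀ t x j, |v t x j| ≤ Bv :=
    ⟨max Bv' 0, le_max_right _ _, fun t x j => (hBv' t x j).trans (le_max_left _ _)⟩
  obtain ⟨BP', hBP'⟩ := bΦ.bdd
  obtain ⟨BP, hBP0, hBP⟩ : ∃ BP : ℝ, 0 ≤ BP ∧ ∀ t x, |Phi S (FF c h v) t x| ≤ BP :=
    ⟨max BP' 0, le_max_right _ _, fun t x => (hBP' t x).trans (le_max_left _ _)⟩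
  -- integrability
  have i1 : IntegrableOn (fun _ : ℝ × (Fin d → ℝ) => (1 : ℝ)) (I ×ˢ Q d) :=
    integrableOn_const (prod_finite hIf)
  have ib2 : IntegrableOn (fun z : ℝ × (Fin d → ℝ) => ‖b z.1 z.2‖ ^ 2) (I ×ˢ Q d) := by
    refine ⟨(mnb.pow_const 2).aestronglyMeasurable, ?_⟩
    rw [hasFiniteIntegral_iff_enorm, KEY1.iterL (mnb.pow_const 2).enorm, hI]
    refine lt_of_eq_of_lt ?_ g3
    congr 1
    funext t
    congr 1
    funext x
    rw [enorm_pow, enorm_norm]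
  have ib1 : IntegrableOn (fun z : ℝ × (Fin d → ℝ) => ‖b z.1 z.2‖) (I ×ˢ Q d) := by
    refine (i1.add ib2).mono' mnb.aestronglyMeasurable (Eventually.of_forall fun z => ?_)
    rw [Real.norm_eq_abs, abs_norm, Pi.add_apply]
    nlinarith [sq_nonneg (‖b z.1 z.2‖ - 1), norm_nonneg (b z.1 z.2)]
  have iu2 : IntegrableOn (fun z : ℝ × (Fin d → ℝ) => u z.1 z.2 ^ 2) (I ×ˢ Q d) := by
    have m1 : Measurable fun z : ℝ × (Fin d → ℝ) => u z.1 z.2 ^ 2 := mu.pow_const 2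
    refine ⟨m1.aestronglyMeasurable, ?_⟩
    rw [hasFiniteIntegral_iff_ofReal (Eventually.of_forall fun z => sq_nonneg _),
      KEY1.iterL m1.ennreal_ofReal, hI]
    exact g4
  have iu1 : IntegrableOn (fun z : ℝ × (Fin d → ℝ) => |u z.1 z.2|) (I ×ˢ Q d) := by
    refine (i1.add iu2).mono' mu.norm.aestronglyMeasurable (Eventually.of_forall fun z => ?_)
    rw [Real.norm_eq_abs, abs_abs, Pi.add_apply]
    rw [← sq_abs (u z.1 z.2)]
    nlinarith [sq_nonneg (|u z.1 z.2| - 1), abs_nonneg (u z.1 z.2)]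
  have iub : IntegrableOn (fun z : ℝ × (Fin d → ℝ) => |u z.1 z.2| * ‖b z.1 z.2‖) (I ×ˢ Q d) := by
    have m1 : Measurable fun z : ℝ × (Fin d → ℝ) => |u z.1 z.2| * ‖b z.1 z.2‖ :=
      mu.norm.mul mnb
    refine ⟨m1.aestronglyMeasurable, ?_⟩
    rw [hasFiniteIntegral_iff_enorm, KEY1.iterL m1.enorm, hI]
    refine lt_of_eq_of_lt ?_ g1
    congr 1
    funext t
    congr 1
    funext x
    rw [enorm_mul, enorm_norm]
    congr 1
    rw [← Real.norm_eq_abs, enorm_norm]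
  -- the two integrands
  obtain ⟨P, hP⟩ : ∃ P : ℝ × (Fin d → ℝ) → ℝ, P = fun z =>
    u z.1 z.2 * ∑ j, (c (z.1 + 1) z.2 j - b z.1 z.2 j) * v (z.1 + 1) z.2 j := ⟨_, rfl⟩
  obtain ⟨N, hN⟩ : ∃ N : ℝ × (Fin d → ℝ) → ℝ, N = fun z => u z.1 z.2 * pd i (f z.1) z.2 :=
    ⟨_, rfl⟩
  have mP : Measurable P := by
    rw [hP]
    exact mu.mul (Finset.measurable_sum _ fun j _ => ((mc j).sub (mbi j)).mul (mv j))
  have mN : Measurable N := by
    rw [hN]
    exact mu.mul mp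
  have bP : ∀ z : ℝ × (Fin d → ℝ), z.1 ∈ I → ∀ V : ℝ, (∀ j, |v (z.1 + 1) z.2 j| ≤ V) →
      |P z| ≤ (d * V) * (|u z.1 z.2| * Bz z.1 z.2) := by
    intro z hzI V hV
    rw [hP]
    dsimp only
    rw [abs_mul]
    have h1 : |∑ j, (c (z.1 + 1) z.2 j - b z.1 z.2 j) * v (z.1 + 1) z.2 j| ≤
        ∑ _j : Fin d, Bz z.1 z.2 * V := by
      refine (Finset.abs_sum_le_sum_abs _ _).trans (Finset.sum_le_sum fun j _ => ?_)
      exact (hcb z.1 (hI0 _ hzI) z.2 j).trans (mul_le_mul_of_nonneg_left (hV j) (hBz0 _ _))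
    rw [Finset.sum_const, Finset.card_univ, Fintype.card_fin, nsmul_eq_mul] at h1
    calc |u z.1 z.2| * _ ≤ |u z.1 z.2| * ((d : ℝ) * (Bz z.1 z.2 * V)) :=
          mul_le_mul_of_nonneg_left h1 (abs_nonneg _)
      _ = _ := by ring
  have iuB : IntegrableOn (fun z : ℝ × (Fin d → ℝ) => |u z.1 z.2| * Bz z.1 z.2) (I ×ˢ Q d) := by
    refine iub.mono' (mu.norm.mul mB).aestronglyMeasurable (Eventually.of_forall fun z => ?_)
    rw [Real.norm_eq_abs, abs_mul, abs_abs, abs_of_nonneg (hBz0 _ _)]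
    exact mul_le_mul_of_nonneg_left (hBb _ _) (abs_nonneg _)
  have iP : IntegrableOn P (I ×ˢ Q d) := by
    refine (iuB.const_mul (d * Bv)).mono' mP.aestronglyMeasurable ?_
    rw [ae_restrict_iff' (hIm.prod (Q_meas d))]
    exact Eventually.of_forall fun z hzz => bP z hzz.1 Bv (fun j => hBv _ _ j)
  have iN : IntegrableOn N (I ×ˢ Q d) := by
    refine (iu1.const_mul H).mono' mN.aestronglyMeasurable (Eventually.of_forall fun z => ?_)
    rw [hN]
    dsimp only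
    rw [Real.norm_eq_abs, abs_mul, mul_comm]
    exact mul_le_mul_of_nonneg_right (hH _ _) (abs_nonneg _)
  -- the bound of `P`
  have qsh : Measure.QuasiMeasurePreserving (fun z : ℝ × (Fin d → ℝ) => (z.1 + 1, z.2))
      volume volume := by
    have h1 := (measurePreserving_add_right (volume : Measure ℝ) 1).prod
      (MeasurePreserving.id (volume : Measure (Fin d → ℝ)))
    exact h1.quasiMeasurePreserving
  have hP1 : |∫ z in I ×ˢ Q d, P z| ≤ (d * (C1 * K)) *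
      ∫ z in I ×ˢ Q d, |u z.1 z.2| * Bz z.1 z.2 := by
    rw [← integral_const_mul]
    refine le_trans (Real.norm_eq_abs _).symm.le ((norm_integral_le_integral_norm _).trans ?_)
    refine integral_mono_ae iP.norm (iuB.const_mul _) ?_
    rw [EventuallyLE, ae_restrict_iff' (hIm.prod (Q_meas d))]
    filter_upwards [qsh.ae hgrad] with z hz1 hzz
    exact bP z hzz.1 _ (hz1 (by
      have := hI0 _ hzz.1
      show (0 : ℝ) < z.1 + 1
      linarith))
  have hBu : ∫ z in I ×ˢ Q d, |u z.1 z.2| * Bz z.1 z.2 =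
      (∫⁻ t in Ioo 0 T, ∫⁻ x in Q d,
          (if (K : ℝ) < ‖b t x‖ then ‖u t x‖ₑ * ‖b t x‖ₑ else 0)).toReal := by
    have m1 : Measurable fun z : ℝ × (Fin d → ℝ) => |u z.1 z.2| * Bz z.1 z.2 := mu.norm.mul mB
    rw [integral_eq_lintegral_of_nonneg_ae (Eventually.of_forall fun z =>
      mul_nonneg (abs_nonneg _) (hBz0 _ _)) m1.aestronglyMeasurable,
      KEY1.iterL m1.ennreal_ofReal, hI]
    congr 2
    funext t
    congr 1
    funext x
    rw [ENNReal.ofReal_mul (abs_nonneg _), hBz]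
    dsimp only
    split_ifs
    · rw [← Real.norm_eq_abs, ofReal_norm, ofReal_norm]
    · simp
  have hB2 : ∫ z in I ×ˢ Q d, Bz z.1 z.2 ^ 2 =
      (∫⁻ t in Ioo 0 T, ∫⁻ x in Q d,
          (if (K : ℝ) < ‖b t x‖ then ‖b t x‖ₑ ^ 2 else 0)).toReal := by
    have m1 : Measurable fun z : ℝ × (Fin d → ℝ) => Bz z.1 z.2 ^ 2 := mB.pow_const 2
    rw [integral_eq_lintegral_of_nonneg_ae (Eventually.of_forall fun z =>
      sq_nonneg _) m1.aestronglyMeasurable,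
      KEY1.iterL m1.ennreal_ofReal, hI]
    congr 2
    funext t
    congr 1
    funext x
    rw [ENNReal.ofReal_pow (hBz0 _ _), hBz]
    dsimp only
    split_ifs
    · rw [ofReal_norm]
    · simp
  have iB2 : IntegrableOn (fun z : ℝ × (Fin d → ℝ) => Bz z.1 z.2 ^ 2) (I ×ˢ Q d) := by
    refine ib2.mono' (mB.pow_const 2).aestronglyMeasurable (Eventually.of_forall fun z => ?_)
    rw [Real.norm_eq_abs, abs_of_nonneg (sq_nonneg _)]
    exact pow_le_pow_left₀ (hBz0 _ _) (hBb _ _) 2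
  have if2 : IntegrableOn (fun z : ℝ × (Fin d → ℝ) => f z.1 z.2 ^ 2) (I ×ˢ Q d) :=
    int_bdd hIm hIf (mf.pow_const 2) (B := Hf ^ 2) (fun z _ => by
      rw [abs_pow]
      exact pow_le_pow_left₀ (abs_nonneg _) (hHf _ _) 2)
  have hf2 : ∫ z in I ×ˢ Q d, f z.1 z.2 ^ 2 = ∫ t in Ioo 0 T, ∫ x in Q d, (f t x) ^ 2 := by
    rw [← hI]
    exact (iter_eq if2).symm
  -- the energy
  obtain ⟨E, hE⟩ : ∃ E : ℝ, E = ∫ t in Ioo 1 S, ∫ x in Q d,
    (FF c h v t x * Phi S (FF c h v) t x - ∑ j, (v t x j) ^ 2) := ⟨_, rfl⟩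
  rw [← hE] at k2
  -- the four integrands
  obtain ⟨X1, hX1⟩ : ∃ X1 : ℝ × (Fin d → ℝ) → ℝ, X1 = fun z =>
    (∑ j, c (z.1 + 1) z.2 j * v (z.1 + 1) z.2 j) * Phi S (FF c h v) (z.1 + 1) z.2
      - ∑ j, (v (z.1 + 1) z.2 j) ^ 2 := ⟨_, rfl⟩
  obtain ⟨X2, hX2⟩ : ∃ X2 : ℝ × (Fin d → ℝ) → ℝ, X2 = fun z =>
    pd i (f z.1) z.2 * Phi S (FF c h v) (z.1 + 1) z.2 := ⟨_, rfl⟩
  obtain ⟨X3, hX3⟩ : ∃ X3 : ℝ × (Fin d → ℝ) → ℝ, X3 = fun z =>
    f z.1 z.2 * v (z.1 + 1) z.2 i := ⟨_, rfl⟩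
  obtain ⟨X4, hX4⟩ : ∃ X4 : ℝ × (Fin d → ℝ) → ℝ, X4 = fun z =>
    (∑ j, b z.1 z.2 j * v (z.1 + 1) z.2 j) * Phi S (FF c h v) (z.1 + 1) z.2 := ⟨_, rfl⟩
  have mX1 : Measurable X1 := by
    rw [hX1]
    exact ((Finset.measurable_sum _ fun j _ => (mc j).mul (mv j)).mul mΦ).sub
      (Finset.measurable_sum _ fun j _ => (mv j).pow_const 2)
  have mX2 : Measurable X2 := by rw [hX2]; exact mp.mul mΦ
  have mX3 : Measurable X3 := by rw [hX3]; exact mf.mul (mv i)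
  have mX4 : Measurable X4 := by
    rw [hX4]
    exact (Finset.measurable_sum _ fun j _ => (mbi j).mul (mv j)).mul mΦ
  have iX1 : IntegrableOn X1 (I ×ˢ Q d) := by
    refine int_bdd hIm hIf mX1 (B := (∑ _j : Fin d, K * Bv) * BP + ∑ _j : Fin d, Bv ^ 2)
      (fun z _ => ?_)
    rw [hX1]
    dsimp only
    refine (abs_sub _ _).trans (add_le_add ?_ ?_)
    · rw [abs_mul]
      refine mul_le_mul ?_ (hBP _ _) (abs_nonneg _) (Finset.sum_nonneg fun j _ => by positivity)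
      refine (Finset.abs_sum_le_sum_abs _ _).trans (Finset.sum_le_sum fun j _ => ?_)
      rw [abs_mul]
      exact mul_le_mul (hdat.bc _ _ _) (hBv _ _ _) (abs_nonneg _) (by positivity)
    · refine (Finset.abs_sum_le_sum_abs _ _).trans (Finset.sum_le_sum fun j _ => ?_)
      rw [abs_pow]
      exact pow_le_pow_left₀ (abs_nonneg _) (hBv _ _ _) 2
  have iX2 : IntegrableOn X2 (I ×ˢ Q d) := by
    refine int_bdd hIm hIf mX2 (B := H * BP) (fun z _ => ?_)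
    rw [hX2]
    dsimp only
    rw [abs_mul]
    exact mul_le_mul (hH _ _) (hBP _ _) (abs_nonneg _) hH0
  have iX3 : IntegrableOn X3 (I ×ˢ Q d) := by
    refine int_bdd hIm hIf mX3 (B := Hf * Bv) (fun z _ => ?_)
    rw [hX3]
    dsimp only
    rw [abs_mul]
    exact mul_le_mul (hHf _ _) (hBv _ _ _) (abs_nonneg _) hHf0
  have iX4 : IntegrableOn X4 (I ×ˢ Q d) := by
    refine (ib1.const_mul ((d : ℝ) * Bv * BP)).mono' mX4.aestronglyMeasurable
      (Eventually.of_forall fun z => ?_)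
    rw [hX4]
    dsimp only
    rw [Real.norm_eq_abs, abs_mul]
    have h1 : |∑ j, b z.1 z.2 j * v (z.1 + 1) z.2 j| ≤ ∑ _j : Fin d, ‖b z.1 z.2‖ * Bv := by
      refine (Finset.abs_sum_le_sum_abs _ _).trans (Finset.sum_le_sum fun j _ => ?_)
      rw [abs_mul]
      exact mul_le_mul (norm_le_pi_norm (b z.1 z.2) j) (hBv _ _ _) (abs_nonneg _) (norm_nonneg _)
    rw [Finset.sum_const, Finset.card_univ, Fintype.card_fin, nsmul_eq_mul] at h1
    calc _ ≤ ((d : ℝ) * (‖b z.1 z.2‖ * Bv)) * BP :=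
          mul_le_mul h1 (hBP _ _) (abs_nonneg _) (by positivity)
      _ = _ := by ring
  -- the energy as an integral over `I × Q`
  have hE1 : E = (∫ z in I ×ˢ Q d, X1 z) + ∫ z in I ×ˢ Q d, X2 z := by
    have e0 : ∫ z in I ×ˢ Q d, (X1 z + X2 z) = ∫ t in I, ∫ x in Q d, (X1 (t, x) + X2 (t, x)) :=
      (iter_eq (G := fun z => X1 z + X2 z) (iX1.add iX2)).symm
    rw [← integral_add iX1 iX2, e0, hE, hI]
    refine (shift_int hS hST _ ?_).trans ?_
    · intro t ht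
      have h1 : ∀ x, FF c h v t x * Phi S (FF c h v) t x - ∑ j, (v t x j) ^ 2 = 0 := by
        intro x
        rw [hF0 t ht x]
        simp [hv0 t ht x]
      simp only [h1, integral_zero]
    · congr 1
      funext t
      congr 1
      funext x
      simp only [hX1, hX2, hFe]
      ring
  have hE2 : ∫ z in I ×ˢ Q d, X4 z = 0 := by
    rw [← iter_eq iX4, hI, hX4]
    exact k31
  have hsg : SmoothPer (fun t x => f (t - 1) x) := by
    refine ⟨?_, fun t => hs.per (t - 1)⟩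
    have h1 : ContDiff ℝ (⊤ : ℕ∞) (fun z : ℝ × (Fin d → ℝ) => (z.1 - 1, z.2)) := by
      fun_prop
    exact hs.smooth.comp h1
  have hE3 : ∫ z in I ×ˢ Q d, X2 z = - ∫ z in I ×ˢ Q d, X3 z := by
    have k := k32 (fun t x => f (t - 1) x) i hsg
    have hf0 : ∀ t, S ≤ t → f (t - 1) = fun _ => 0 := fun t ht => funext fun x =>
      hz (t - 1) (Or.inr (by rw [hSdef] at ht; linarith)) x
    have e1 := shift_int hS hST (fun t => ∫ x in Q d,
      pd i (fun x => f (t - 1) x) x * Phi S (FF c h v) t x) (by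
        intro t ht
        have h1 : ∀ x, pd i (fun x => f (t - 1) x) x = 0 := by
          intro x
          have : (fun x => f (t - 1) x) = fun _ => 0 := hf0 t ht
          rw [this]
          unfold pd
          simp
        simp only [h1, zero_mul, integral_zero])
    have e2 := shift_int hS hST (fun t => ∫ x in Q d, f (t - 1) x * v t x i) (by
        intro t ht
        simp only [hf0 t ht, zero_mul, integral_zero])
    simp only [add_sub_cancel_right] at e1 e2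
    rw [e1, e2] at k
    rw [← iter_eq iX2, ← iter_eq iX3, hI, hX2, hX3]
    exact k
  have hE4 : 2 * E ≤ (d : ℝ) * M0 ^ 2 * (∫ z in I ×ˢ Q d, Bz z.1 z.2 ^ 2) +
      ∫ z in I ×ˢ Q d, f z.1 z.2 ^ 2 := by
    have h1 : E = ∫ z in I ×ˢ Q d, (X1 z - X3 z - X4 z) := by
      have e1 : ∫ z in I ×ˢ Q d, (X1 z - X3 z - X4 z) =
          (∫ z in I ×ˢ Q d, (X1 z - X3 z)) - ∫ z in I ×ˢ Q d, X4 z :=
        integral_sub (iX1.sub iX3) iX4
      rw [e1, integral_sub iX1 iX3, hE2, hE1, hE3]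
      ring
    have h2 : E ≤ ∫ z in I ×ˢ Q d, ((d : ℝ) * M0 ^ 2 / 2 * Bz z.1 z.2 ^ 2
        + 1 / 2 * f z.1 z.2 ^ 2) := by
      rw [h1]
      refine integral_mono_ae ((iX1.sub iX3).sub iX4)
        ((iB2.const_mul _).add (if2.const_mul _)) ?_
      rw [EventuallyLE, ae_restrict_iff' (hIm.prod (Q_meas d))]
      filter_upwards [qsh.ae hmax] with z hz1 hzz
      have hz0 := hI0 _ hzz.1
      have h3 := pw i (hz1 (by show (0 : ℝ) < z.1 + 1; linarith))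
        (fun j => c (z.1 + 1) z.2 j - b z.1 z.2 j) (fun j => v (z.1 + 1) z.2 j)
        (w := f z.1 z.2) (hcb z.1 hz0 z.2)
      refine le_trans (le_of_eq ?_) h3
      rw [hX1, hX3, hX4]
      simp only [sub_mul, Finset.sum_sub_distrib]
      ring
    rw [integral_add (iB2.const_mul _) (if2.const_mul _), integral_const_mul,
      integral_const_mul] at h2
    linarith
  -- the estimate from KEY1 and KEY2
  obtain ⟨R, hR⟩ : ∃ R : ℝ, R = (d : ℝ) * M0 ^ 2 * (∫ z in I ×ˢ Q d, Bz z.1 z.2 ^ 2) +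
      ∫ z in I ×ˢ Q d, f z.1 z.2 ^ 2 := ⟨_, rfl⟩
  have hBn : 0 ≤ ∫ z in I ×ˢ Q d, Bz z.1 z.2 ^ 2 := integral_nonneg fun z => sq_nonneg _
  have hfn : 0 ≤ ∫ z in I ×ˢ Q d, f z.1 z.2 ^ 2 := integral_nonneg fun z => sq_nonneg _
  have hR0 : 0 ≤ R := by rw [hR]; positivity
  rw [← hR] at hE4
  have hA : ∀ ε : ℝ, 0 < ε → |∫ z in I ×ˢ Q d, (P z + N z)| ≤
      Real.sqrt (∫ x in Q d, (u0 x) ^ 2) * Real.sqrt (R + ε) := by
    intro ε hε
    have h1 := k1 (R + ε) (by linarith) (by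
      filter_upwards [k2 ε hε] with n hn
      linarith)
    refine le_trans (le_of_eq ?_) h1
    have e0 : ∫ z in I ×ˢ Q d, (P z + N z) = ∫ t in I, ∫ x in Q d, (P (t, x) + N (t, x)) :=
      (iter_eq (G := fun z => P z + N z) (iP.add iN)).symm
    rw [e0, hI, ← abs_neg, ← integral_neg]
    congr 2
    funext t
    rw [← integral_neg]
    congr 1
    funext x
    simp only [hP, hN, hFe, sub_mul, Finset.sum_sub_distrib]
    ring
  have hA0 : |∫ z in I ×ˢ Q d, (P z + N z)| ≤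
      Real.sqrt (∫ x in Q d, (u0 x) ^ 2) * Real.sqrt R := by
    have h1 : Tendsto (fun ε : ℝ => Real.sqrt (∫ x in Q d, (u0 x) ^ 2) * Real.sqrt (R + ε))
        (𝓝[>] 0) (𝓝 (Real.sqrt (∫ x in Q d, (u0 x) ^ 2) * Real.sqrt (R + 0))) := by
      have h2 : Continuous (fun ε : ℝ => Real.sqrt (∫ x in Q d, (u0 x) ^ 2) *
        Real.sqrt (R + ε)) := by fun_prop
      exact (h2.tendsto 0).mono_left nhdsWithin_le_nhds
    rw [add_zero] at h1
    exact ge_of_tendsto h1 (by filter_upwards [self_mem_nhdsWithin] with ε hε; exact hA ε hε)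
  have hR1 : Real.sqrt R ≤ Real.sqrt d * M0 * Real.sqrt (∫ z in I ×ˢ Q d, Bz z.1 z.2 ^ 2) +
      Real.sqrt (∫ z in I ×ˢ Q d, f z.1 z.2 ^ 2) := by
    apply Real.sqrt_le_iff.2
    refine ⟨by positivity, ?_⟩
    have e1 : Real.sqrt (d : ℝ) ^ 2 = d := Real.sq_sqrt (Nat.cast_nonneg d)
    have e2 := Real.sq_sqrt hBn
    have e3 := Real.sq_sqrt hfn
    rw [add_sq, mul_pow, mul_pow, e1, e2, e3, hR]
    have : 0 ≤ 2 * (Real.sqrt d * M0 * Real.sqrt (∫ z in I ×ˢ Q d, Bz z.1 z.2 ^ 2)) *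
      Real.sqrt (∫ z in I ×ˢ Q d, f z.1 z.2 ^ 2) := by positivity
    linarith
  -- conclusion
  have hLHS : ∫ t in Ioo 0 T, ∫ x in Q d, u t x * pd i (f t) x = ∫ z in I ×ˢ Q d, N z := by
    rw [← iter_eq iN, hI, hN]
  rw [hLHS]
  have hN1 : |∫ z in I ×ˢ Q d, N z| ≤ |∫ z in I ×ˢ Q d, (P z + N z)| + |∫ z in I ×ˢ Q d, P z| := by
    have h1 : ∫ z in I ×ˢ Q d, N z = (∫ z in I ×ˢ Q d, (P z + N z)) - ∫ z in I ×ˢ Q d, P z := by
      rw [integral_add iP iN]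
      ring
    rw [h1]
    exact abs_sub _ _
  rw [hBu] at hP1
  rw [hB2, hf2] at hR1
  rw [ENNReal.toReal_mul, ENNReal.toReal_natCast]
  have hs0 : 0 ≤ Real.sqrt (∫ x in Q d, (u0 x) ^ 2) := Real.sqrt_nonneg _
  have hA1 := hA0.trans (mul_le_mul_of_nonneg_left hR1 hs0)
  have t1 : (d : ℝ) * (C1 * K) * (∫⁻ t in Ioo 0 T, ∫⁻ x in Q d,
      (if (K : ℝ) < ‖b t x‖ then ‖u t x‖ₑ * ‖b t x‖ₑ else 0)).toReal ≤
      (d * C1 + Real.sqrt d * M0) * (K * (∫⁻ t in Ioo 0 T, ∫⁻ x in Q d,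
      (if (K : ℝ) < ‖b t x‖ then ‖u t x‖ₑ * ‖b t x‖ₑ else 0)).toReal) := by
    have h1 : 0 ≤ Real.sqrt d * M0 * (K * (∫⁻ t in Ioo 0 T, ∫⁻ x in Q d,
      (if (K : ℝ) < ‖b t x‖ then ‖u t x‖ₑ * ‖b t x‖ₑ else 0)).toReal) := by positivity
    nlinarith
  have t2 : Real.sqrt d * M0 * Real.sqrt (∫⁻ t in Ioo 0 T, ∫⁻ x in Q d,
              (if (K : ℝ) < ‖b t x‖ then ‖b t x‖ₑ ^ 2 else 0)).toReal ≤
      (d * C1 + Real.sqrt d * M0) * Real.sqrt (∫⁻ t in Ioo 0 T, ∫⁻ x in Q d,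
              (if (K : ℝ) < ‖b t x‖ then ‖b t x‖ₑ ^ 2 else 0)).toReal := by
    have h1 : 0 ≤ (d : ℝ) * C1 * Real.sqrt (∫⁻ t in Ioo 0 T, ∫⁻ x in Q d,
              (if (K : ℝ) < ‖b t x‖ then ‖b t x‖ₑ ^ 2 else 0)).toReal := by positivity
    nlinarith
  have t3 := mul_le_mul_of_nonneg_left (add_le_add_right t2
    (Real.sqrt (∫ t in Ioo 0 T, ∫ x in Q d, (f t x) ^ 2))) hs0
  linarith

end Pool.Agent.Helper18.ND
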