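import Pool.Agent.H62.ND.KEY1
import Pool.Agent.Helper89.ND.ENER
import Pool.Agent.Helper75.ND.UNIQ

/-!
# ND: part KEY, preparations
-/

set_option autoImplicit false

open MeasureTheory Set Filter Topology
open scoped ENNReal NNReal

namespace Pool.Agent.Helper18.ND

open Pool.Agent.Helper28.ND

/-- the gradient of a test function is bounded -/
theorem bdd_pd {d : ℕ} {T : ℝ} {f : ℝ → (Fin d → ℝ) → ℝ} (hf : IsTest0 T f) (i : Fin d) :
    ∃ H : ℝ, 0 ≤ H ∧ ∀ t x, |pd i (f t) x| ≤ H := by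
  obtain ⟨hs, e, he, hz⟩ := hf
  have hc : Continuous (U fun t => pd i (f t)) :=
    (Pool.Agent.Helper89.ND.smooth_pd hs.smooth i).continuous
  have hcomp : IsCompact (Icc (0:ℝ) T ×ˢ Icc (0 : Fin d → ℝ) 1) := isCompact_Icc.prod isCompact_Icc
  obtain ⟨B, hB⟩ := hcomp.exists_bound_of_continuousOn hc.continuousOn
  refine ⟨max B 0, le_max_right _ _, fun t x => ?_⟩
  by_cases ht : t ∈ Icc 0 T
  · obtain ⟨y, hy, k, rfl⟩ := Pool.Agent.Helper75.ND.exists_Q x
    rw [Pool.Agent.Helper89.ND.per_pd (hs.per t) i y k]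
    exact (hB (t, y) ⟨ht, Pool.Agent.Helper75.ND.Q_subset_Icc d hy⟩).trans (le_max_left _ _)
  · have h0 : f t = fun _ => 0 := funext fun x => hz t (by
      by_contra hcon
      push Not at hcon
      exact ht ⟨by linarith, by linarith⟩) x
    rw [h0]
    unfold pd
    simp

/-- the test function is bounded -/
theorem bdd_f {d : ℕ} {T : ℝ} {f : ℝ → (Fin d → ℝ) → ℝ} (hf : IsTest0 T f) :
    ∃ H : ℝ, 0 ≤ H ∧ ∀ t x, |f t x| ≤ H := by
  obtain ⟨hs, e, he, hz⟩ := hf
  have hc : Continuous (U f) := hs.smooth.continuous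
  have hcomp : IsCompact (Icc (0:ℝ) T ×ˢ Icc (0 : Fin d → ℝ) 1) := isCompact_Icc.prod isCompact_Icc
  obtain ⟨B, hB⟩ := hcomp.exists_bound_of_continuousOn hc.continuousOn
  refine ⟨max B 0, le_max_right _ _, fun t x => ?_⟩
  by_cases ht : t ∈ Icc 0 T
  · obtain ⟨y, hy, k, rfl⟩ := Pool.Agent.Helper75.ND.exists_Q x
    rw [hs.per t y k]
    exact (hB (t, y) ⟨ht, Pool.Agent.Helper75.ND.Q_subset_Icc d hy⟩).trans (le_max_left _ _)
  · rw [hz t (by
      by_contra hcon
      push Not at hcon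
      exact ht ⟨by linarith, by linarith⟩) x]
    simp

/-- shift in time -/
theorem shift_int {S T : ℝ} (hS : 1 < S) (hST : S < 1 + T) (w : ℝ → ℝ)
    (hw : ∀ t, S ≤ t → w t = 0) : ∫ t in Ioo 1 S, w t = ∫ t in Ioo 0 T, w (t + 1) := by
  have h1 : ∫ t in Ioo 1 (1 + T), w t = ∫ t in Ioo 1 S, w t := by
    refine setIntegral_eq_of_subset_of_forall_sdiff_eq_zero (μ := volume) measurableSet_Ioo
      (fun t ht => ⟨ht.1, by linarith [ht.2]⟩) ?_
    intro t ht
    apply hw
    by_contra hlt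
    push Not at hlt
    exact ht.2 ⟨ht.1.1, hlt⟩
  have h2 := intervalIntegral.integral_comp_add_right (a := 0) (b := T) w 1
  rw [intervalIntegral.integral_of_le (by linarith), intervalIntegral.integral_of_le (by linarith),
    integral_Ioc_eq_integral_Ioo, integral_Ioc_eq_integral_Ioo, zero_add, add_comm T 1] at h2
  rw [← h1, ← h2]

/-- the truncated and shifted drift -/
noncomputable def cc {d : ℕ} (b : ℝ → (Fin d → ℝ) → (Fin d → ℝ)) (S K : ℝ) (t : ℝ)
    (x : Fin d → ℝ) : Fin d → ℝ :=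
  if 1 < t ∧ t < S ∧ ‖b (t - 1) x‖ ≤ K then b (t - 1) x else 0

theorem dat {d : ℕ} {T : ℝ} {f : ℝ → (Fin d → ℝ) → ℝ} (hs : SmoothPer f) {e : ℝ} (he : 0 < e)
    (hz : ∀ t, (t ≤ e ∨ T - e ≤ t) → ∀ x, f t x = 0) (i : Fin d) {H : ℝ}
    (hH : ∀ t x, |pd i (f t) x| ≤ H) {b : ℝ → (Fin d → ℝ) → (Fin d → ℝ)}
    (hbm : Measurable (U b)) (hbp : ∀ t, Per (b t)) {K : ℝ} (hK : 0 ≤ K) :
    Dat d (1 + T - e) K H (cc b (1 + T - e) K) (fun t x => pd i (f (t - 1)) x) := by
  have m0 : Measurable (fun z : ℝ × (Fin d → ℝ) => (z.1 - 1, z.2)) := by fun_prop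
  have m1 : Measurable (fun z : ℝ × (Fin d → ℝ) => b (z.1 - 1) z.2) := hbm.comp m0
  refine ⟨?_, ?_, ?_, ?_, ?_, ?_, ?_, ?_⟩
  · have h1 : MeasurableSet {z : ℝ × (Fin d → ℝ) | 1 < z.1 ∧ z.1 < 1 + T - e ∧
        ‖b (z.1 - 1) z.2‖ ≤ K} :=
      (measurableSet_lt measurable_const measurable_fst).inter
        ((measurableSet_lt measurable_fst measurable_const).inter
          (measurableSet_le m1.norm measurable_const))
    exact Measurable.ite h1 m1 measurable_const
  · intro t x k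
    simp only [cc, hbp (t - 1) x k]
  · intro t x j
    unfold cc
    split_ifs with h
    · exact (norm_le_pi_norm _ j).trans h.2.2
    · simpa using hK
  · intro t ht x j
    unfold cc
    rw [if_neg (by
      rintro ⟨h1, h2, -⟩
      rcases ht with ht | ht <;> linarith)]
    rfl
  · have : U (fun t x => pd i (f (t - 1)) x) =
        (U fun t => pd i (f t)) ∘ fun z : ℝ × (Fin d → ℝ) => (z.1 - 1, z.2) := rfl
    rw [this]
    exact (Pool.Agent.Helper89.ND.smooth_pd hs.smooth i).continuous.measurable.comp m0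
  · intro t
    exact Pool.Agent.Helper89.ND.per_pd (hs.per (t - 1)) i
  · intro t x
    exact hH (t - 1) x
  · intro t ht x
    have h0 : f (t - 1) = fun _ => 0 := funext fun x => hz (t - 1) (by
      rcases ht with ht | ht
      · left; linarith
      · right; linarith) x
    show pd i (f (t - 1)) x = 0
    rw [h0]
    unfold pd
    simp

end Pool.Agent.Helper18.ND
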