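import Pool.Agent.Helper18.ND.USpec
import Pool.Agent.Helper4.ND.FUND
import Pool.Agent.Helper87.ND.MOLD
import Pool.Agent.Helper89.ND.ENER

/-!
# ND: part U4, derivatives of mollifications from weak equations with periodic test functions
-/

set_option autoImplicit false

namespace Pool.Agent.Helper18.ND.U4

open MeasureTheory Set Filter Topology Pool.Agent.Helper28.ND Pool.Agent.Helper18.ND
open Pool.Agent.Helper87.ND.MOLG Pool.Agent.Helper87.ND.MOLD Pool.Agent.Helper4.ND.FUND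
open scoped ENNReal NNReal Convolution ContDiff

/-- `pext_smooth` without condition on the times -/
theorem pext_smooth' {d : ℕ} {φ : ℝ × (Fin d → ℝ) → ℝ} (hφ : ContDiff ℝ ∞ φ)
    (hc : HasCompactSupport φ) (hs : ∀ z ∈ tsupport φ, z.2 ∈ Qo d) :
    ContDiff ℝ (⊤ : ℕ∞) (U (pext φ)) := by
  rw [contDiff_iff_contDiffAt]
  rintro ⟨t0, x0⟩
  by_cases hA : ∀ i, Int.fract (x0 i) ≠ 0
  · -- locally a translate
    have h1 : ∀ᶠ z : ℝ × (Fin d → ℝ) in 𝓝 (t0, x0), ∀ i, ⌊z.2 i⌋ = ⌊x0 i⌋ := by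
      rw [Filter.eventually_all]
      intro i
      have h2 : Ioo (⌊x0 i⌋ : ℝ) (⌊x0 i⌋ + 1) ∈ 𝓝 (x0 i) := by
        apply Ioo_mem_nhds
        · have := Int.fract_nonneg (x0 i)
          have h3 : 0 < Int.fract (x0 i) := lt_of_le_of_ne this (Ne.symm (hA i))
          rw [← Int.self_sub_floor] at h3
          linarith
        · exact Int.lt_floor_add_one _
      have h4 : Tendsto (fun z : ℝ × (Fin d → ℝ) => z.2 i) (𝓝 (t0, x0)) (𝓝 (x0 i)) :=
        ((continuous_apply i).comp continuous_snd).continuousAt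
      filter_upwards [h4 h2] with z hz
      rw [Int.floor_eq_iff]
      exact ⟨hz.1.le, hz.2⟩
    have h2 : U (pext φ) =ᶠ[𝓝 (t0, x0)]
        fun z => φ (z.1, fun i => z.2 i - (⌊x0 i⌋ : ℝ)) := by
      filter_upwards [h1] with z hz
      simp only [U, pext]
      congr 2
      funext i
      rw [← Int.self_sub_floor, hz i]
    refine ContDiffAt.congr_of_eventuallyEq ?_ h2
    apply ContDiff.contDiffAt
    apply hφ.comp
    fun_prop
  · push Not at hA
    obtain ⟨i, hi⟩ := hA
    have hKi : IsCompact ((fun z : ℝ × (Fin d → ℝ) => z.2 i) '' tsupport φ) :=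
      hc.isCompact.image (by fun_prop)
    have hKs : (fun z : ℝ × (Fin d → ℝ) => z.2 i) '' tsupport φ ⊆ Ioo 0 1 := by
      rintro _ ⟨z, hz, rfl⟩
      exact (hs z hz) i (mem_univ i)
    obtain ⟨e, he, hK⟩ := away hKi hKs
    have hfl : (⌊x0 i⌋ : ℝ) = x0 i := by
      rw [← Int.self_sub_floor] at hi
      linarith
    have h2 : U (pext φ) =ᶠ[𝓝 (t0, x0)] fun _ => 0 := by
      have h4 : Tendsto (fun z : ℝ × (Fin d → ℝ) => z.2 i) (𝓝 (t0, x0)) (𝓝 (x0 i)) :=
        ((continuous_apply i).comp continuous_snd).continuousAt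
      have h5 : Ioo (x0 i - min e 1) (x0 i + min e 1) ∈ 𝓝 (x0 i) :=
        Ioo_mem_nhds (by have : 0 < min e 1 := lt_min he one_pos; linarith)
          (by have : 0 < min e 1 := lt_min he one_pos; linarith)
      filter_upwards [h4 h5] with z hz
      simp only [U, pext]
      by_contra hne
      have h6 : (z.1, fun j => Int.fract (z.2 j)) ∈ tsupport φ := subset_closure hne
      have h7 := hK ⟨_, h6, rfl⟩
      simp only [zero_add] at h7
      have hm1 := min_le_left e 1
      have hm2 := min_le_right e 1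
      rcases le_or_gt (x0 i) (z.2 i) with h8 | h8
      · have h9 : ⌊z.2 i⌋ = ⌊x0 i⌋ := by
          rw [Int.floor_eq_iff, hfl]
          exact ⟨h8, by linarith [hz.2]⟩
        rw [← Int.self_sub_floor, h9, hfl] at h7
        linarith [h7.1, hz.2]
      · have h9 : ⌊z.2 i⌋ = ⌊x0 i⌋ - 1 := by
          rw [Int.floor_eq_iff]
          push_cast
          rw [hfl]
          exact ⟨by linarith [hz.1], by linarith⟩
        rw [← Int.self_sub_floor, h9] at h7
        push_cast at h7
        rw [hfl] at h7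
        linarith [h7.2, hz.1]
    exact contDiffAt_const.congr_of_eventuallyEq h2

section

variable {d : ℕ}

/-- the open cube centred at `x` -/
def W (x : Fin d → ℝ) : Set (Fin d → ℝ) := {y | ∀ j, |y j - x j| < 1 / 2}

theorem W_open (x : Fin d → ℝ) : IsOpen (W x) := by
  have : W x = ⋂ j, {y : Fin d → ℝ | |y j - x j| < 1 / 2} := by
    ext y; simp [W]
  rw [this]
  exact isOpen_iInter_of_finite fun j => isOpen_lt (by fun_prop) continuous_const

/-- integrals over the cubes -/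
theorem int_W (h2 : S_U2) (x : Fin d → ℝ) {h : (Fin d → ℝ) → ℝ} (hp : Per h) :
    ∫ y in W x, h y = ∫ y in Q d, h y := by
  rw [← (h2 d (x - fun _ => 1 / 2)).1 h hp, Q_ae_eq]
  have hmp := measurePreserving_add_right (volume : Measure (Fin d → ℝ)) (x - fun _ => 1 / 2)
  have hme := (MeasurableEquiv.addRight (x - fun _ => (1 / 2 : ℝ))).measurableEmbedding
  have h3 := hmp.setIntegral_preimage_emb hme h (W x)
  rw [← h3]
  congr 2
  ext y
  simp only [Qo, W, mem_preimage, mem_setOf_eq, Set.mem_pi, mem_univ, true_imp_iff, mem_Ioo,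
    Pi.add_apply, Pi.sub_apply, abs_lt]
  constructor
  · intro h j
    have := h j
    constructor <;> linarith [this.1, this.2]
  · intro h j
    have := h j
    constructor <;> linarith [this.1, this.2]

/-- the key lemma -/
theorem key (h2 : S_U2) {T : ℝ} {D : ℝ → (Fin d → ℝ) → ℝ}
    (hloc : LocallyIntegrable (U D) (volume : Measure (ℝ × (Fin d → ℝ))))
    (hper : ∀ t, Per (D t)) (hoff : ∀ t, (t ≤ 0 ∨ T ≤ t) → ∀ x, D t x = 0)
    {g : ℝ → (Fin d → ℝ) → ℝ} (gper : ∀ s, Per (g s)) (x : Fin d → ℝ)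
    {ψ : ℝ × (Fin d → ℝ) → ℝ} (hψc : Continuous ψ) (hψs : HasCompactSupport ψ)
    (hψ0 : ∀ s y, y ∉ W x → ψ (s, y) = 0) (hg : ∀ s, ∀ y ∈ W x, g s y = ψ (s, y)) :
    ∫ s in Ioo 0 T, ∫ y in Q d, D s y * g s y = ∫ z, U D z * ψ z := by
  have hint : Integrable (fun z => U D z * ψ z) := by
    have := hloc.integrable_smul_right_of_hasCompactSupport hψc hψs
    simpa using this
  rw [Measure.volume_eq_prod] at hint ⊢
  rw [integral_prod _ hint]
  have h1 : ∀ s, ∫ y, U D (s, y) * ψ (s, y) = ∫ y in Q d, D s y * g s y := by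
    intro s
    have hp : Per (fun y => D s y * g s y) := by
      intro y k
      simp only [hper s y k, gper s y k]
    rw [← int_W h2 x hp, ← setIntegral_eq_integral_of_forall_compl_eq_zero (s := W x)]
    · refine setIntegral_congr_fun (W_open x).measurableSet fun y hy => ?_
      simp only [hg s y hy]
      rfl
    · intro y hy
      rw [hψ0 s y hy, mul_zero]
  simp only [h1]
  refine setIntegral_eq_integral_of_forall_compl_eq_zero ?_
  intro s hs
  have : ∀ y, D s y = 0 := fun y => hoff s (by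
    by_contra hcon
    push Not at hcon
    exact hs ⟨hcon.1, hcon.2⟩) y
  simp [this]

theorem ts_eta {n : ℕ} {w : ℝ × (Fin d → ℝ)} (hw : w ∈ tsupport (eta d n)) : ‖w‖ ≤ 1 / 4 := by
  have h1 := (bmp d n).tsupport_normed_eq (μ := (volume : Measure (ℝ × (Fin d → ℝ))))
  have h2 : w ∈ Metric.closedBall (0 : ℝ × (Fin d → ℝ)) (bmp d n).rOut := by
    rw [← h1]; exact hw
  rw [mem_closedBall_zero_iff] at h2
  refine h2.trans ?_
  have h4 : (bmp d n).rOut = 1 / (4 * ((n : ℝ) + 1)) := rfl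
  rw [h4]
  apply one_div_le_one_div_of_le (by norm_num)
  have : (0 : ℝ) ≤ n := Nat.cast_nonneg n
  linarith

theorem ts_dv {r : ℝ × (Fin d → ℝ) → ℝ} (v : ℝ × (Fin d → ℝ)) : tsupport (dv v r) ⊆ tsupport r := by
  refine (closure_mono ?_).trans (tsupport_fderiv_subset ℝ)
  intro w hw
  simp only [Function.mem_support] at hw ⊢
  intro h0
  apply hw
  unfold dv
  rw [h0]
  rfl

/-- reflected kernels vanish off the cube -/
theorem rf_zero {n : ℕ} {r : ℝ × (Fin d → ℝ) → ℝ} (hr : tsupport r ⊆ tsupport (eta d n)) (t : ℝ)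
    (x : Fin d → ℝ) (s : ℝ) (y : Fin d → ℝ) (hy : y ∉ W x) : rf r (t, x) (s, y) = 0 := by
  unfold rf
  by_contra hne
  have h1 : ((t, x) - (s, y) : ℝ × (Fin d → ℝ)) ∈ tsupport r := subset_closure hne
  have h2 := ts_eta (hr h1)
  apply hy
  intro j
  have h3 : ‖(((t, x) - (s, y) : ℝ × (Fin d → ℝ))).2‖ ≤ 1 / 4 := (norm_snd_le _).trans h2
  have h4 := (norm_le_pi_norm ((((t, x) - (s, y) : ℝ × (Fin d → ℝ))).2) j).trans h3
  simp only [Prod.snd_sub, Pi.sub_apply, Real.norm_eq_abs] at h4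
  rw [abs_sub_comm] at h4
  linarith

theorem rf_cont {r : ℝ × (Fin d → ℝ) → ℝ} (hr : ContDiff ℝ (⊤ : ℕ∞) r)
    (z0 : ℝ × (Fin d → ℝ)) : Continuous (rf r z0) := (rf_smooth hr z0).continuous

theorem rf_cs {r : ℝ × (Fin d → ℝ) → ℝ} (hc : HasCompactSupport r) (z0 : ℝ × (Fin d → ℝ)) :
    HasCompactSupport (rf r z0) := hc.comp_homeomorph (Homeomorph.subLeft z0)

/-- the periodic test function -/
noncomputable def tp (n : ℕ) (t : ℝ) (x : Fin d → ℝ) (s : ℝ) (y : Fin d → ℝ) : ℝ :=
  pext (rf (eta d n) (t, fun _ => 1 / 2)) s (y - (x - fun _ => 1 / 2))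

theorem tp_smooth (n : ℕ) (t : ℝ) (x : Fin d → ℝ) : ContDiff ℝ (⊤ : ℕ∞) (U (tp n t x)) := by
  have h1 : ContDiff ℝ (⊤ : ℕ∞) (U (pext (rf (eta d n) (t, fun _ => (1 / 2 : ℝ))))) := by
    apply pext_smooth' (rf_smooth (eta_smooth d n) _) (rf_cs (eta_cs d n) _)
    intro z hz
    -- the support is closed
    have hcl : tsupport (rf (eta d n) (t, fun _ => (1 / 2 : ℝ))) ⊆
        {z : ℝ × (Fin d → ℝ) | ‖((t, fun _ => (1 / 2 : ℝ)) - z : ℝ × (Fin d → ℝ))‖ ≤ 1 / 4} := by
      apply closure_minimal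
      · intro w hw
        exact ts_eta (subset_closure hw)
      · exact isClosed_le (by fun_prop) continuous_const
    have h2 := hcl hz
    simp only [mem_setOf_eq] at h2
    intro j _
    have h3 := (norm_snd_le _).trans h2
    have h4 := (norm_le_pi_norm _ j).trans h3
    simp only [Prod.snd_sub, Pi.sub_apply, Real.norm_eq_abs, abs_le] at h4
    constructor <;> linarith [h4.1, h4.2]
  have h2 : ContDiff ℝ (⊤ : ℕ∞)
      (fun z : ℝ × (Fin d → ℝ) => (z.1, z.2 - (x - fun _ => (1 / 2 : ℝ)))) := by fun_prop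
  exact h1.comp h2

theorem tp_per (n : ℕ) (t : ℝ) (x : Fin d → ℝ) (s : ℝ) : Per (tp n t x s) := by
  intro y k
  unfold tp pext
  congr 2
  funext i
  simp only [Pi.sub_apply]
  have : y i + (k i : ℝ) - (x i - 1 / 2) = (y i - (x i - 1 / 2)) + (k i : ℝ) := by ring
  rw [this, Int.fract_add_intCast]

theorem tp_eq (n : ℕ) (t : ℝ) (x : Fin d → ℝ) (s : ℝ) (y : Fin d → ℝ) (hy : y ∈ W x) :
    tp n t x s y = tf n t x s y := by
  unfold tp pext tf rf
  congr 1
  have h1 : (fun i => Int.fract ((y - (x - fun _ => (1 / 2 : ℝ)) : Fin d → ℝ) i)) =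
      (y - (x - fun _ => (1 / 2 : ℝ)) : Fin d → ℝ) := by
    funext i
    have := hy i
    rw [abs_lt] at this
    rw [Int.fract_eq_self]
    simp only [Pi.sub_apply]
    constructor <;> linarith [this.1, this.2]
  rw [h1]
  ext
  · rfl
  · simp only [Prod.snd_sub, Pi.sub_apply]
    ring

theorem tp_test {T : ℝ} (n : ℕ) (t : ℝ) (x : Fin d → ℝ) (ht : t + 1 / (4 * ((n : ℝ) + 1)) < T) :
    IsTest T (tp n t x) := by
  refine ⟨⟨tp_smooth n t x, tp_per n t x⟩, t + 1 / (4 * ((n : ℝ) + 1)), ht, ?_⟩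
  intro s hs y
  unfold tp pext rf
  apply eta_zero
  simp only [Prod.fst_sub]
  have := neg_abs_le (t - s)
  linarith

theorem cv_diff' {r : ℝ × (Fin d → ℝ) → ℝ} (hr : ContDiff ℝ (⊤ : ℕ∞) r) (hc : HasCompactSupport r)
    {D : ℝ → (Fin d → ℝ) → ℝ}
    (hD : LocallyIntegrable (U D) (volume : Measure (ℝ × (Fin d → ℝ)))) :
    Differentiable ℝ (cv r D) := by
  have : ContDiff ℝ (⊤ : ℕ∞) (cv r D) := hc.contDiff_convolution_left _ hr hD
  exact this.differentiable (by simp)

theorem cv_dv' {r : ℝ × (Fin d → ℝ) → ℝ} (hr : ContDiff ℝ (⊤ : ℕ∞) r) (hc : HasCompactSupport r)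
    {D : ℝ → (Fin d → ℝ) → ℝ}
    (hD : LocallyIntegrable (U D) (volume : Measure (ℝ × (Fin d → ℝ))))
    (v z : ℝ × (Fin d → ℝ)) : fderiv ℝ (cv r D) z v = cv (dv v r) D z := by
  have h1 := hc.hasFDerivAt_convolution_right
    (ContinuousLinearMap.lsmul ℝ ℝ : ℝ →L[ℝ] ℝ →L[ℝ] ℝ).flip
    (μ := (volume : Measure (ℝ × (Fin d → ℝ)))) hD (hr.of_le (by simp)) z
  rw [convolution_flip] at h1
  have h2 : fderiv ℝ (cv r D) z = _ := h1.fderiv
  rw [h2, convolution_precompR_apply _ hD (hc.fderiv ℝ)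
    ((hr.of_le (by simp : (1 : WithTop ℕ∞) ≤ ((⊤ : ℕ∞) : WithTop ℕ∞))).continuous_fderiv one_ne_zero),
    convolution_flip]
  rfl

theorem mol_pd' {D : ℝ → (Fin d → ℝ) → ℝ}
    (hD : LocallyIntegrable (U D) (volume : Measure (ℝ × (Fin d → ℝ)))) (n : ℕ) (t : ℝ)
    (x : Fin d → ℝ) (i : Fin d) :
    pd i (mol n D t) x = cv (dv (0, Pi.single i 1) (eta d n)) D (t, x) := by
  have h1 := pd_slice (cv_diff' (eta_smooth d n) (eta_cs d n) hD) t i x
  rw [cv_dv' (eta_smooth d n) (eta_cs d n) hD] at h1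
  exact h1

theorem mol_pd2' {D : ℝ → (Fin d → ℝ) → ℝ}
    (hD : LocallyIntegrable (U D) (volume : Measure (ℝ × (Fin d → ℝ)))) (n : ℕ) (t : ℝ)
    (x : Fin d → ℝ) (i : Fin d) : pd i (pd i (mol n D t)) x
      = cv (dv (0, Pi.single i 1) (dv (0, Pi.single i 1) (eta d n))) D (t, x) := by
  have h0 : pd i (mol n D t) = fun x => cv (dv (0, Pi.single i 1) (eta d n)) D (t, x) := by
    funext x; exact mol_pd' hD n t x i
  rw [h0]
  have hs := dv_smooth (eta_smooth d n) (0, Pi.single i 1)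
  have hc := dv_cs (eta_cs d n) (0, Pi.single i 1)
  have h1 := pd_slice (cv_diff' hs hc hD) t i x
  rw [cv_dv' hs hc hD] at h1
  exact h1

theorem mol_dt' {D : ℝ → (Fin d → ℝ) → ℝ}
    (hD : LocallyIntegrable (U D) (volume : Measure (ℝ × (Fin d → ℝ)))) (n : ℕ) (t : ℝ)
    (x : Fin d → ℝ) : dt (mol n D) t x = cv (dv (1, 0) (eta d n)) D (t, x) := by
  have h1 := dt_slice (cv_diff' (eta_smooth d n) (eta_cs d n) hD) t x
  rw [cv_dv' (eta_smooth d n) (eta_cs d n) hD] at h1
  exact h1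

theorem int_rf' {D : ℝ → (Fin d → ℝ) → ℝ}
    (hD : LocallyIntegrable (U D) (volume : Measure (ℝ × (Fin d → ℝ))))
    {r : ℝ × (Fin d → ℝ) → ℝ} (hr : ContDiff ℝ (⊤ : ℕ∞) r) (hc : HasCompactSupport r)
    (z0 : ℝ × (Fin d → ℝ)) : Integrable (fun z => U D z * rf r z0 z) := by
  have := hD.integrable_smul_right_of_hasCompactSupport (rf_cont hr z0) (rf_cs hc z0)
  simpa using this

theorem tp_ev (n : ℕ) (t : ℝ) (x : Fin d → ℝ) (s : ℝ) (y : Fin d → ℝ) (hy : y ∈ W x) :
    tp n t x s =ᶠ[𝓝 y] tf n t x s := by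
  filter_upwards [(W_open x).mem_nhds hy] with w hw
  exact tp_eq n t x s w hw

theorem tp_pd (n : ℕ) (t : ℝ) (x : Fin d → ℝ) (s : ℝ) (y : Fin d → ℝ) (hy : y ∈ W x)
    (i : Fin d) : pd i (tp n t x s) y = pd i (tf n t x s) y := by
  unfold pd
  rw [(tp_ev n t x s y hy).fderiv_eq]

theorem tp_pd2 (n : ℕ) (t : ℝ) (x : Fin d → ℝ) (s : ℝ) (y : Fin d → ℝ) (hy : y ∈ W x)
    (i : Fin d) : pd i (pd i (tp n t x s)) y = pd i (pd i (tf n t x s)) y := by
  have h1 : pd i (tp n t x s) =ᶠ[𝓝 y] pd i (tf n t x s) := by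
    filter_upwards [(W_open x).mem_nhds hy] with w hw
    exact tp_pd n t x s w hw i
  unfold pd at h1 ⊢
  rw [h1.fderiv_eq]

theorem tp_dt (n : ℕ) (t : ℝ) (x : Fin d → ℝ) (s : ℝ) (y : Fin d → ℝ) (hy : y ∈ W x) :
    dt (tp n t x) s y = dt (tf n t x) s y := by
  unfold dt
  congr 1
  funext s
  exact tp_eq n t x s y hy

end

theorem main (h1 : S_U1) (h2 : S_U2) : S_U4 := by
  intro r r' d T D F hr hr' hT hD hF
  have lD := (h1 r d T D hr hT hD).1
  have lF := (h1 r' d T F hr' hT hF).1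
  -- the right-hand side
  have hR : ∀ (n : ℕ) t x, ∫ s in Ioo 0 T, ∫ y in Q d, F s y * tp n t x s y = mol n F t x := by
    intro n t x
    rw [key h2 lF hF.per hF.off (tp_per n t x) x (rf_cont (eta_smooth d n) (t, x))
      (rf_cs (eta_cs d n) (t, x)) (rf_zero (le_refl _) t x) (fun s y hy => tp_eq n t x s y hy),
      mol_cv, cv_swap]
    rfl
  refine ⟨?_, ?_⟩
  · intro h n t x ht
    have e1 := h (tp n t x) (tp_test n t x ht)
    rw [hR] at e1
    obtain ⟨ψ, hψ⟩ : ∃ ψ : ℝ × (Fin d → ℝ) → ℝ, ψ = fun z => - rf (dv (1, 0) (eta d n)) (t, x) z +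
      ∑ i : Fin d, rf (dv (0, Pi.single i 1) (dv (0, Pi.single i 1) (eta d n))) (t, x) z :=
      ⟨_, rfl⟩
    have e2 := key h2 (T := T) lD hD.per hD.off
      (g := fun s y => dt (tp n t x) s y + lap (tp n t x s) y) ?_ x (ψ := ψ) ?_ ?_ ?_ ?_
    · rw [e2] at e1
      rw [← e1, mol_dt' lD]
      have h3 : lap (mol n D t) x = ∑ i : Fin d,
        cv (dv (0, Pi.single i 1) (dv (0, Pi.single i 1) (eta d n))) D (t, x) := by
        unfold lap
        exact Finset.sum_congr rfl fun i _ => mol_pd2' lD n t x i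
      rw [h3, hψ]
      have i1 := int_rf' lD (dv_smooth (eta_smooth d n) (1, 0)) (dv_cs (eta_cs d n) (1, 0)) (t, x)
      have i2 : ∀ i : Fin d, Integrable (fun z => U D z *
          rf (dv (0, Pi.single i 1) (dv (0, Pi.single i 1) (eta d n))) (t, x) z) := fun i =>
        int_rf' lD (dv_smooth (dv_smooth (eta_smooth d n) _) _)
          (dv_cs (dv_cs (eta_cs d n) _) _) (t, x)
      have e3 : ∀ z : ℝ × (Fin d → ℝ), U D z * (- rf (dv (1, 0) (eta d n)) (t, x) z +
          ∑ i : Fin d, rf (dv (0, Pi.single i 1) (dv (0, Pi.single i 1) (eta d n))) (t, x) z) =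
          - (U D z * rf (dv (1, 0) (eta d n)) (t, x) z) + ∑ i : Fin d, U D z *
            rf (dv (0, Pi.single i 1) (dv (0, Pi.single i 1) (eta d n))) (t, x) z := by
        intro z
        rw [mul_add, Finset.mul_sum]
        ring
      simp only [e3]
      have e5 : ∫ z : ℝ × (Fin d → ℝ), (- (U D z * rf (dv (1, 0) (eta d n)) (t, x) z) +
          ∑ i : Fin d, U D z *
            rf (dv (0, Pi.single i 1) (dv (0, Pi.single i 1) (eta d n))) (t, x) z) =
          (∫ z : ℝ × (Fin d → ℝ), - (U D z * rf (dv (1, 0) (eta d n)) (t, x) z)) +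
          ∫ z : ℝ × (Fin d → ℝ), ∑ i : Fin d, U D z *
            rf (dv (0, Pi.single i 1) (dv (0, Pi.single i 1) (eta d n))) (t, x) z :=
        integral_add i1.neg (integrable_finset_sum _ fun i _ => i2 i)
      rw [e5, integral_neg,
        integral_finset_sum _ (fun i _ => i2 i), cv_swap,
        Finset.sum_congr rfl (fun i _ => cv_swap _ D (t, x))]
      have e4 : ∀ r : ℝ × (Fin d → ℝ) → ℝ, ∫ z, U D z * rf r (t, x) z =
          ∫ w, U D w * r ((t, x) - w) := fun r => rfl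
      simp only [e4]
      ring
    · intro s y k
      have a1 : dt (tp n t x) s (fun i => y i + (k i : ℝ)) = dt (tp n t x) s y := by
        unfold dt
        congr 1
        funext s
        exact tp_per n t x s y k
      have a2 : lap (tp n t x s) (fun i => y i + (k i : ℝ)) = lap (tp n t x s) y := by
        unfold lap
        exact Finset.sum_congr rfl fun i _ =>
          Pool.Agent.Helper89.ND.per_pd (Pool.Agent.Helper89.ND.per_pd (tp_per n t x s) i) i y k
      simp only [a1, a2]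
    · rw [hψ]
      exact (rf_cont (dv_smooth (eta_smooth d n) _) _).neg.add
        (continuous_finset_sum _ fun i _ =>
          rf_cont (dv_smooth (dv_smooth (eta_smooth d n) _) _) _)
    · rw [hψ]
      apply HasCompactSupport.add
      · exact (rf_cs (dv_cs (eta_cs d n) _) _).neg
      · have : ∀ A : Finset (Fin d), HasCompactSupport (fun z => ∑ i ∈ A,
            rf (dv (0, Pi.single i 1) (dv (0, Pi.single i 1) (eta d n))) (t, x) z) := by
          intro A
          classical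
          induction A using Finset.induction_on with
          | empty =>
            simp only [Finset.sum_empty]
            exact HasCompactSupport.zero
          | insert a s ha ih =>
            simp only [Finset.sum_insert ha]
            exact (rf_cs (dv_cs (dv_cs (eta_cs d n) _) _) _).add ih
        exact this Finset.univ
    · intro s y hy
      rw [hψ]
      simp only
      rw [rf_zero (ts_dv _) t x s y hy, Finset.sum_eq_zero fun i _ =>
        rf_zero ((ts_dv _).trans (ts_dv _)) t x s y hy]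
      simp
    · intro s y hy
      rw [hψ]
      simp only
      rw [tp_dt n t x s y hy, tf_dt]
      unfold lap
      rw [Finset.sum_congr rfl fun i _ => (tp_pd2 n t x s y hy i).trans (tf_pd2 n t x i s y)]
  · intro i h n t x ht
    have e1 := h (tp n t x) (tp_test n t x ht)
    rw [hR] at e1
    have e2 := key h2 (T := T) lD hD.per hD.off
      (g := fun s y => pd i (tp n t x s) y) ?_ x
      (ψ := fun z => - rf (dv (0, Pi.single i 1) (eta d n)) (t, x) z) ?_ ?_ ?_ ?_
    · rw [e2] at e1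
      rw [mol_pd' lD, cv_swap, ← neg_neg (mol n F t x), ← e1, ← integral_neg]
      refine integral_congr_ae (Eventually.of_forall fun z => ?_)
      simp only [mul_neg, neg_neg]
      rfl
    · intro s
      exact Pool.Agent.Helper89.ND.per_pd (tp_per n t x s) i
    · exact (rf_cont (dv_smooth (eta_smooth d n) _) _).neg
    · exact (rf_cs (dv_cs (eta_cs d n) _) _).neg
    · intro s y hy
      rw [rf_zero (ts_dv _) t x s y hy, neg_zero]
    · intro s y hy
      rw [tp_pd n t x s y hy i, tf_pd]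

end Pool.Agent.Helper18.ND.U4
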