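import Pool.Agent.Helper18.ND.UNPb
import Pool.Agent.Helper75.ND.DIV2

/-!
# ND: part UNP, uniqueness of parabolic solutions
-/

set_option autoImplicit false

namespace Pool.Agent.Helper18.ND.UNP

open MeasureTheory Set Filter Topology Pool.Agent.Helper28.ND Pool.Agent.H62.ND
open Pool.Agent.Helper18.ND
open scoped ENNReal NNReal

noncomputable section

variable {d : ℕ}

/-- restriction in time -/
def tr (T : ℝ) (f : ℝ → (Fin d → ℝ) → ℝ) (t : ℝ) (x : Fin d → ℝ) : ℝ :=
  if 0 < t ∧ t < T then f t x else 0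

theorem tr_eq {T : ℝ} {f : ℝ → (Fin d → ℝ) → ℝ} {t : ℝ} (ht : t ∈ Ioo 0 T) (x : Fin d → ℝ) :
    tr T f t x = f t x := if_pos ht

theorem tr_off {T : ℝ} {f : ℝ → (Fin d → ℝ) → ℝ} {t : ℝ} (ht : t ≤ 0 ∨ T ≤ t) (x : Fin d → ℝ) :
    tr T f t x = 0 := if_neg (by
      rintro ⟨h1, h2⟩
      rcases ht with h | h <;> linarith)

theorem tr_meas {T : ℝ} {f : ℝ → (Fin d → ℝ) → ℝ} (hf : Measurable (U f)) :
    Measurable (U (tr T f)) :=
  Measurable.ite ((measurableSet_lt measurable_const measurable_fst).inter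
    (measurableSet_lt measurable_fst measurable_const)) hf measurable_const

theorem tr_per {T : ℝ} {f : ℝ → (Fin d → ℝ) → ℝ} (hf : ∀ t, Per (f t)) (t : ℝ) :
    Per (tr T f t) := by
  intro x k
  unfold tr
  rw [hf t x k]

/-- the representative in `Q` -/
def rep (x : Fin d → ℝ) : Fin d → ℝ := fun i => x i - ((⌈x i⌉ : ℝ) - 1)

theorem rep_meas : Measurable (rep : (Fin d → ℝ) → (Fin d → ℝ)) := by
  refine measurable_pi_iff.2 fun i => ?_
  have h1 : Measurable (fun x : Fin d → ℝ => (⌈x i⌉ : ℝ)) :=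
    (measurable_from_top (f := fun z : ℤ => (z : ℝ))).comp
      (Int.measurable_ceil.comp (measurable_pi_apply i))
  exact (measurable_pi_apply i).sub (h1.sub_const 1)

theorem rep_per (x : Fin d → ℝ) (k : Fin d → ℤ) : rep (fun i => x i + (k i : ℝ)) = rep x := by
  funext i
  unfold rep
  rw [Int.ceil_add_intCast]
  push_cast
  ring

theorem rep_eq {x : Fin d → ℝ} (hx : x ∈ Q d) : rep x = x := by
  funext i
  unfold rep
  have h1 := hx i (mem_univ i)
  have : ⌈x i⌉ = 1 := by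
    rw [Int.ceil_eq_iff]
    constructor
    · push_cast; linarith [h1.1]
    · push_cast; linarith [h1.2]
  rw [this]
  simp

theorem b2 (hINTG : S_INTG) {T : ℝ} {p : ℝ≥0∞} {b : ℝ → (Fin d → ℝ) → (Fin d → ℝ)} (hT : 0 < T)
    (hp : 2 ≤ p) (hDr : Drift d T p b) :
    (∫⁻ t in Ioo 0 T, ∫⁻ x in Q d, ‖b t x‖ₑ ^ 2) < ⊤ := by
  have hs : Sol d T ⊤ b (fun _ => 0) (fun _ _ => 0) :=
    ⟨measurable_const, fun t x k => rfl, ⟨0, Eventually.of_forall fun t => by
        have : eLpNorm (fun _ : Fin d → ℝ => (0 : ℝ)) ⊤ (volume.restrict (Q d)) = 0 := eLpNorm_zero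
        rw [this]; exact zero_le⟩,
      measurable_const, fun x k => rfl, by
        have : eLpNorm (fun _ : Fin d → ℝ => (0 : ℝ)) ⊤ (volume.restrict (Q d)) = 0 := eLpNorm_zero
        rw [this]; exact ENNReal.zero_lt_top, fun f hf => by simp⟩
  have hpq : 2 * p⁻¹ + (⊤ : ℝ≥0∞)⁻¹ ≤ 1 := by
    rw [ENNReal.inv_top, add_zero]
    calc 2 * p⁻¹ ≤ 2 * 2⁻¹ := by
          gcongr
      _ = 1 := ENNReal.mul_inv_cancel (by norm_num) (by norm_num)
  exact (hINTG d T p ⊤ b _ _ hT le_top hpq hDr hs).2.2.1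

theorem main (h1 : S_U1) (h3 : S_U3) (h4 : S_U4) (h5 : S_U5) (h6 : S_U6) (hI : S_IBP)
    (hV : S_DIV2) (hINTG : S_INTG) : S_UNP := by
  intro d T p q b u hT hp hq hDr hSol hPar
  obtain ⟨hu2, G, mG, hG2, hGw⟩ := hPar
  have hb2 := b2 hINTG hT hp hDr
  have mb : Measurable (U b) := hDr.meas
  have mbi : ∀ j, Measurable (fun z : ℝ × (Fin d → ℝ) => b z.1 z.2 j) := fun j =>
    (measurable_pi_apply j).comp mb
  obtain ⟨uh, huh⟩ : ∃ uh, uh = tr T u := ⟨_, rfl⟩
  obtain ⟨Gh, hGh⟩ : ∃ Gh : Fin d → ℝ → (Fin d → ℝ) → ℝ,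
    Gh = fun i => tr T (fun t x => G t (rep x) i) := ⟨_, rfl⟩
  obtain ⟨Fh, hFh⟩ : ∃ Fh : ℝ → (Fin d → ℝ) → ℝ, Fh = fun t x => ∑ i, b t x i * Gh i t x :=
    ⟨_, rfl⟩
  have PLu : PL 2 T uh := by
    rw [huh]
    refine ⟨tr_meas hSol.meas, tr_per hSol.per, fun t ht x => tr_off ht x, ?_⟩
    refine lt_of_eq_of_lt ?_ hu2
    refine setLIntegral_congr_fun measurableSet_Ioo fun t ht => ?_
    refine lintegral_congr fun x => ?_
    rw [tr_eq ht, Real.enorm_eq_ofReal_abs, ← ENNReal.ofReal_pow (abs_nonneg _), sq_abs]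
  have mGr : ∀ i, Measurable (U (fun t x => G t (rep x) i)) := by
    intro i
    have a1 : Measurable (fun z : ℝ × (Fin d → ℝ) => (z.1, rep z.2)) :=
      measurable_fst.prodMk (rep_meas.comp measurable_snd)
    exact (measurable_pi_apply i).comp (mG.comp a1)
  have PLG : ∀ i, PL 2 T (Gh i) := by
    intro i
    rw [hGh]
    refine ⟨tr_meas (mGr i), tr_per (fun t x k => ?_), fun t ht x => tr_off ht x, ?_⟩
    · simp only [rep_per]
    · refine lt_of_le_of_lt ?_ hG2
      refine setLIntegral_mono' measurableSet_Ioo fun t ht => ?_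
      refine setLIntegral_mono' (Q_meas d) fun x hx => ?_
      show ‖tr T (fun t x => G t (rep x) i) t x‖ₑ ^ 2 ≤ _
      rw [tr_eq ht, rep_eq hx, Real.enorm_eq_ofReal_abs, ← ENNReal.ofReal_pow (abs_nonneg _),
        sq_abs]
      exact ENNReal.ofReal_le_ofReal
        (Finset.single_le_sum (f := fun i => G t x i ^ 2) (fun j _ => sq_nonneg _)
          (Finset.mem_univ i))
  have ibi2 : ∀ i, IntegrableOn (fun z : ℝ × (Fin d → ℝ) => b z.1 z.2 i ^ 2)
      (Ioo 0 T ×ˢ Q d) := by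
    intro i
    refine int_sq (mbi i) (lt_of_le_of_lt ?_ hb2)
    refine lintegral_mono fun t => lintegral_mono fun x => ?_
    gcongr
    rw [Real.enorm_eq_ofReal_abs, ← ofReal_norm]
    exact ENNReal.ofReal_le_ofReal (norm_le_pi_norm (b t x) i)
  have ibn : IntegrableOn (fun z : ℝ × (Fin d → ℝ) => ‖b z.1 z.2‖ ^ 2) (Ioo 0 T ×ˢ Q d) := by
    refine int_sq (A := fun z => ‖b z.1 z.2‖) mb.norm ?_
    simpa using hb2
  have iGh2 : ∀ i, IntegrableOn (fun z : ℝ × (Fin d → ℝ) => Gh i z.1 z.2 ^ 2)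
      (Ioo 0 T ×ˢ Q d) := fun i => int_sq (A := U (Gh i)) (PLG i).meas (PLG i).int
  have iuh2 : IntegrableOn (fun z : ℝ × (Fin d → ℝ) => uh z.1 z.2 ^ 2)
      (Ioo 0 T ×ˢ Q d) := int_sq (A := U uh) PLu.meas PLu.int
  have mFh : Measurable (U Fh) := by
    rw [hFh]
    exact Finset.measurable_sum _ fun i _ => (mbi i).mul (PLG i).meas
  have iFh : IntegrableOn (U Fh) (Ioo 0 T ×ˢ Q d) := by
    rw [hFh]
    exact integrable_finsetSum _ fun i _ => int_AB (mbi i) (PLG i).meas (ibi2 i) (iGh2 i)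
  have hFoff : ∀ t, (t ≤ 0 ∨ T ≤ t) → ∀ x, Fh t x = 0 := by
    intro t ht x
    rw [hFh]
    exact Finset.sum_eq_zero fun i _ => by rw [(PLG i).off t ht x, mul_zero]
  have PLF : PL 1 T Fh := by
    refine ⟨mFh, ?_, hFoff, ?_⟩
    · intro t x k
      rw [hFh]
      simp only [hDr.per t x k, (PLG _).per t x k]
    · simp only [pow_one]
      have := iFh.2
      rw [hasFiniteIntegral_iff_enorm, KEY1.iterL mFh.enorm] at this
      exact this
  -- the weak equations
  have hw : ∀ i, ∀ f : ℝ → (Fin d → ℝ) → ℝ, IsTest T f →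
      ∫ t in Ioo 0 T, ∫ x in Q d, uh t x * pd i (f t) x
        = - ∫ t in Ioo 0 T, ∫ x in Q d, Gh i t x * f t x := by
    intro i
    refine h5 d T uh (Gh i) i hT PLu (PLG i) ?_
    intro f hf
    have e1 := hGw i f hf
    have e2 : ∫ t in Ioo 0 T, ∫ x in Q d, uh t x * pd i (f t) x =
        ∫ t in Ioo 0 T, ∫ x in Q d, u t x * pd i (f t) x := by
      refine setIntegral_congr_fun measurableSet_Ioo fun t ht => ?_
      simp only [huh, tr_eq ht]
    have e3 : ∫ t in Ioo 0 T, ∫ x in Q d, Gh i t x * f t x =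
        ∫ t in Ioo 0 T, ∫ x in Q d, G t x i * f t x := by
      refine setIntegral_congr_fun measurableSet_Ioo fun t ht => ?_
      simp only [hGh, tr_eq ht]
      refine setIntegral_congr_fun (Q_meas d) fun x hx => ?_
      simp only [rep_eq hx]
    rw [e2, e3]
    exact e1
  have hdr := h6 d T p b uh Gh hT hDr hb2 PLu PLG hw
  have luh := (h1 2 d T uh (Or.inr rfl) hT PLu)
  have lFh := (h1 1 d T Fh (Or.inl rfl) hT PLF)
  have lGh := fun i => (h1 2 d T (Gh i) (Or.inr rfl) hT (PLG i))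
  have hI1 : Ioo 0 T ⊆ Icc (-1) T := fun t ht => ⟨by linarith [ht.1], ht.2.le⟩
  have iuh : IntegrableOn (fun z : ℝ × (Fin d → ℝ) => uh z.1 z.2) (Ioo 0 T ×ˢ Q d) :=
    int_loc luh.1 hI1
  have heq : ∀ f : ℝ → (Fin d → ℝ) → ℝ, IsTest T f →
      ∫ t in Ioo 0 T, ∫ x in Q d, uh t x * (dt f t x + lap (f t) x)
        = ∫ t in Ioo 0 T, ∫ x in Q d, Fh t x * f t x := by
    intro f hf
    have cdt : Continuous (fun z : ℝ × (Fin d → ℝ) => dt f z.1 z.2) :=
      (Pool.Agent.Helper89.ND.smooth_dt hf.1.smooth).continuous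
    have clap : Continuous (fun z : ℝ × (Fin d → ℝ) => lap (f z.1) z.2) := by
      unfold lap
      refine continuous_finsetSum _ fun i _ => ?_
      have := Pool.Agent.Helper89.ND.smooth_pd (f := fun t => pd i (f t))
        (Pool.Agent.Helper89.ND.smooth_pd hf.1.smooth i) i
      exact this.continuous
    have cpd : ∀ i, Continuous (fun z : ℝ × (Fin d → ℝ) => pd i (f z.1) z.2) := fun i =>
      (Pool.Agent.Helper89.ND.smooth_pd hf.1.smooth i).continuous
    have iA : IntegrableOn (fun z : ℝ × (Fin d → ℝ) => uh z.1 z.2 *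
        (dt f z.1 z.2 + lap (f z.1) z.2)) (Ioo 0 T ×ˢ Q d) := by
      have := int_mul_cont measurableSet_Ioo hI1 iuh (cdt.add clap)
      refine this.congr (Eventually.of_forall fun z => ?_)
      exact mul_comm _ _
    have iB : IntegrableOn (fun z : ℝ × (Fin d → ℝ) => uh z.1 z.2 *
        ∑ i, b z.1 z.2 i * pd i (f z.1) z.2) (Ioo 0 T ×ˢ Q d) := by
      have a1 : IntegrableOn (fun z : ℝ × (Fin d → ℝ) => ∑ i, pd i (f z.1) z.2 *
          (uh z.1 z.2 * b z.1 z.2 i)) (Ioo 0 T ×ˢ Q d) :=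
        integrable_finsetSum _ fun i _ => int_mul_cont measurableSet_Ioo hI1
          (int_AB (A := U uh) PLu.meas (mbi i) iuh2 (ibi2 i)) (cpd i)
      refine a1.congr (Eventually.of_forall fun z => ?_)
      simp only [Finset.mul_sum]
      exact Finset.sum_congr rfl fun i _ => by ring
    have e1 := hSol.eqn f hf
    have e2 : ∫ t in Ioo 0 T, ∫ x in Q d, u t x * (dt f t x + (∑ i, b t x i * pd i (f t) x)
        + lap (f t) x) = ∫ z in Ioo 0 T ×ˢ Q d, (uh z.1 z.2 *
        (dt f z.1 z.2 + lap (f z.1) z.2) + uh z.1 z.2 *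
        ∑ i, b z.1 z.2 i * pd i (f z.1) z.2) := by
      rw [← iter_eq (G := fun z => uh z.1 z.2 *
        (dt f z.1 z.2 + lap (f z.1) z.2) + uh z.1 z.2 *
        ∑ i, b z.1 z.2 i * pd i (f z.1) z.2) (iA.add iB)]
      refine setIntegral_congr_fun measurableSet_Ioo fun t ht => ?_
      simp only [huh, tr_eq ht]
      congr 1
      funext x
      ring
    rw [e2, integral_add iA iB, ← iter_eq iA, ← iter_eq iB] at e1
    simp only [zero_mul, integral_zero, add_zero] at e1
    have e3 := hdr f hf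
    rw [e3] at e1
    have e4 : ∫ t in Ioo 0 T, ∫ x in Q d, Fh t x * f t x =
        ∫ t in Ioo 0 T, ∫ x in Q d, (∑ i, b t x i * Gh i t x) * f t x := by
      rw [hFh]
    rw [e4]
    linarith
  -- the mollified equations
  have mol1 := (h4 2 1 d T uh Fh (Or.inr rfl) (Or.inl rfl) hT PLu PLF).1 heq
  have mol2 := fun i => (h4 2 2 d T uh (Gh i) (Or.inr rfl) (Or.inr rfl) hT PLu (PLG i)).2 i (hw i)
  -- the limits
  have iterL' : ∀ {I : Set ℝ} {f : ℝ × (Fin d → ℝ) → ℝ≥0∞}, Measurable f →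
    ∫⁻ z in I ×ˢ Q d, f z = ∫⁻ t in I, ∫⁻ x in Q d, f (t, x) := fun hf => KEY1.iterL hf
  have hIJ2 : Ioc (-1) T ⊆ Ioo (-1) (T + 1) := fun t ht => ⟨ht.1, by linarith [ht.2]⟩
  have hII2 : Ioo 0 T ⊆ Ioo (-1) (T + 1) := fun t ht => ⟨by linarith [ht.1], by linarith [ht.2]⟩
  have mun : ∀ n, Measurable (fun z : ℝ × (Fin d → ℝ) => mol n uh z.1 z.2) := fun n =>
    (luh.2.1 n).smooth.continuous.measurable
  have mGn : ∀ i n, Measurable (fun z : ℝ × (Fin d → ℝ) => mol n (Gh i) z.1 z.2) := fun i n =>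
    ((lGh i).2.1 n).smooth.continuous.measurable
  have mFn : ∀ n, Measurable (fun z : ℝ × (Fin d → ℝ) => mol n Fh z.1 z.2) := fun n =>
    (lFh.2.1 n).smooth.continuous.measurable
  have tA : Tendsto (fun n => ∫⁻ z in Ioc (-1) T ×ˢ Q d, ‖mol n Fh z.1 z.2 - Fh z.1 z.2‖ₑ)
      atTop (𝓝 0) := by
    have a1 := h3 1 d T Fh (Or.inl rfl) hT PLF
    simp only [pow_one] at a1
    refine tendsto_of_tendsto_of_tendsto_of_le_of_le tendsto_const_nhds a1
      (fun n => zero_le) (fun n => ?_)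
    have m := ((mFn n).sub mFh).enorm
    refine le_trans ?_ (le_of_eq (iterL' (I := Ioo (-1) (T + 1)) m))
    exact lintegral_mono_set (prod_mono hIJ2 le_rfl)
  have t2 : ∀ (f : ℝ → (Fin d → ℝ) → ℝ), PL 2 T f → Measurable (U f) →
      (∀ n, Measurable (fun z : ℝ × (Fin d → ℝ) => mol n f z.1 z.2)) →
      Tendsto (fun n => ∫⁻ z in Ioo 0 T ×ˢ Q d, ‖mol n f z.1 z.2 - f z.1 z.2‖ₑ ^ 2)
      atTop (𝓝 0) := by
    intro f hf mf mn
    have a1 := h3 2 d T f (Or.inr rfl) hT hf
    refine tendsto_of_tendsto_of_tendsto_of_le_of_le tendsto_const_nhds a1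
      (fun n => zero_le) (fun n => ?_)
    have m := ((mn n).sub mf).enorm.pow_const 2
    refine le_trans ?_ (le_of_eq (iterL' (I := Ioo (-1) (T + 1)) m))
    exact lintegral_mono_set (prod_mono hII2 le_rfl)
  have tC : Tendsto (fun n => ∫⁻ z in Ioo 0 T ×ˢ Q d, ‖mol n uh z.1 z.2 - uh z.1 z.2‖ₑ)
      atTop (𝓝 0) := by
    have a1 := cs_tendsto (μ := volume.restrict (Ioo 0 T ×ˢ Q d))
      (β := fun _ : ℝ × (Fin d → ℝ) => 1)
      (α := fun n z => ‖mol n uh z.1 z.2 - uh z.1 z.2‖ₑ) measurable_const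
      (fun n => ((mun n).sub PLu.meas).enorm) (by
        simp only [one_pow, lintegral_one, Measure.restrict_apply_univ]
        exact (prod_finite (by rw [Real.volume_Ioo]; exact ENNReal.ofReal_ne_top)).lt_top)
      (t2 uh PLu PLu.meas mun)
    simpa only [one_mul] using a1
  have tB : Tendsto (fun n => ∫⁻ z in Ioo 0 T ×ˢ Q d,
      ‖∑ i, b z.1 z.2 i * (mol n (Gh i) z.1 z.2 - Gh i z.1 z.2)‖ₑ) atTop (𝓝 0) := by
    have a1 : ∀ i, Tendsto (fun n => ∫⁻ z in Ioo 0 T ×ˢ Q d,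
        ‖b z.1 z.2 i‖ₑ * ‖mol n (Gh i) z.1 z.2 - Gh i z.1 z.2‖ₑ) atTop (𝓝 0) := by
      intro i
      refine cs_tendsto (mbi i).enorm (fun n => ((mGn i n).sub (PLG i).meas).enorm) ?_
        (t2 (Gh i) (PLG i) (PLG i).meas (mGn i))
      have := (ibi2 i).2
      rw [hasFiniteIntegral_iff_enorm] at this
      simpa only [enorm_pow] using this
    have a2 := tendsto_finsetSum Finset.univ fun i _ => a1 i
    rw [Finset.sum_const_zero] at a2
    refine tendsto_of_tendsto_of_tendsto_of_le_of_le tendsto_const_nhds a2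
      (fun n => zero_le) (fun n => ?_)
    simp only
    have a3 : ∫⁻ z in Ioo 0 T ×ˢ Q d, ∑ i, ‖b z.1 z.2 i‖ₑ *
        ‖mol n (Gh i) z.1 z.2 - Gh i z.1 z.2‖ₑ = ∑ i, ∫⁻ z in Ioo 0 T ×ˢ Q d,
        ‖b z.1 z.2 i‖ₑ * ‖mol n (Gh i) z.1 z.2 - Gh i z.1 z.2‖ₑ :=
      lintegral_finsetSum _ fun i _ =>
        (mbi i).enorm.mul ((mGn i n).sub (PLG i).meas).enorm
    rw [← a3]
    refine lintegral_mono fun z => ?_
    refine (enorm_sum_le _ _).trans (le_of_eq ?_)
    exact Finset.sum_congr rfl fun i _ => enorm_mul _ _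
  -- the inequality for every `S < T`
  have fin : ∀ S, S < T → ∀ᵐ z ∂(volume.restrict (Ioo 0 T ×ˢ Q d) : Measure (ℝ × (Fin d → ℝ))),
      z.1 < S → uh z.1 z.2 = 0 := by
    intro S hS
    have hcχ' : Continuous (deriv (chi S)) := (chi_smooth S).continuous_deriv (by simp)
    obtain ⟨M, hM⟩ := isCompact_Icc.exists_bound_of_continuousOn
      (s := Icc 0 T) hcχ'.continuousOn
    have hM' : ∀ t ∈ Ioo 0 T, |deriv (chi S) t| ≤ M := fun t ht => hM t ⟨ht.1.le, ht.2.le⟩
    have hev : ∀ᶠ n : ℕ in atTop, S + 1 / (4 * ((n : ℝ) + 1)) < T := by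
      have a1 : Tendsto (fun n : ℕ => S + 1 / 4 * (1 / ((n : ℝ) + 1))) atTop
          (𝓝 (S + 1 / 4 * 0)) :=
        (tendsto_one_div_add_atTop_nhds_zero_nat.const_mul (1 / 4)).const_add S
      rw [mul_zero, add_zero] at a1
      filter_upwards [a1.eventually (gt_mem_nhds hS)] with n hn
      have e : 1 / (4 * ((n : ℝ) + 1)) = 1 / 4 * (1 / ((n : ℝ) + 1)) := by
        rw [one_div_mul_one_div]
      rw [e]
      exact hn
    have key : ∀ᶠ n : ℕ in atTop,
        - ∫ z in Ioo 0 T ×ˢ Q d, deriv (chi S) z.1 * g (uh z.1 z.2) ≤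
        (∫⁻ z in Ioc (-1) T ×ˢ Q d, ‖mol n Fh z.1 z.2 - Fh z.1 z.2‖ₑ).toReal +
        (∫⁻ z in Ioo 0 T ×ˢ Q d,
          ‖∑ i, b z.1 z.2 i * (mol n (Gh i) z.1 z.2 - Gh i z.1 z.2)‖ₑ).toReal +
        M * (∫⁻ z in Ioo 0 T ×ˢ Q d, ‖mol n uh z.1 z.2 - uh z.1 z.2‖ₑ).toReal := by
      filter_upwards [hev, tA.eventually_lt_const ENNReal.zero_lt_top,
        tB.eventually_lt_const ENNReal.zero_lt_top,
        tC.eventually_lt_const ENNReal.zero_lt_top] with n hn hnA hnB hnC
      have sun := luh.2.1 n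
      refine step hI hT hS (fun t x => by rw [hFh]) hFoff lFh.1 luh.1 sun (lFh.2.1 n)
        (fun i => (lGh i).2.1 n) ?_ ?_ mb ibn ?_ hM' hnA.ne hnB.ne hnC.ne
      · intro x
        refine luh.2.2 n (-1) (Or.inl ?_) x
        have : 1 / (4 * ((n : ℝ) + 1)) ≤ 1 := by
          rw [div_le_one (by positivity)]
          have : (0 : ℝ) ≤ n := Nat.cast_nonneg n
          linarith
        linarith
      · intro t x ht
        exact mol1 n t x (by linarith)
      · -- the drift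
        have hcu : Continuous (fun z : ℝ × (Fin d → ℝ) => mol n uh z.1 z.2) :=
          sun.smooth.continuous
        have ht : IsTest T (fun t x => chi S t * g (mol n uh t x)) := by
          refine ⟨⟨?_, ?_⟩, S, hS, fun t ht x => by simp only [chi_zero ht, zero_mul]⟩
          · exact ((chi_smooth S).comp contDiff_fst).mul (g_smooth.comp sun.smooth)
          · intro t x k
            simp only [sun.per t x k]
        have e1 := hV d T p b hT hDr hb2 _ ht
        have e2 : ∀ t x i, pd i (fun x => chi S t * g (mol n uh t x)) x =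
            chi S t * (g1 (mol n uh t x) * mol n (Gh i) t x) := by
          intro t x i
          by_cases hts : t < S
          · have hdf : HasFDerivAt (mol n uh t) (fderiv ℝ (mol n uh t) x) x :=
              ((Pool.Agent.Helper89.ND.diff_slice sun.smooth t).differentiable
                (by simp) x).hasFDerivAt
            have a1 : HasFDerivAt (fun x => chi S t * g (mol n uh t x))
                (chi S t • (g1 (mol n uh t x) • fderiv ℝ (mol n uh t) x)) x :=
              ((g_deriv (mol n uh t x)).comp_hasFDerivAt x hdf).const_mul (chi S t)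
            rw [← mol2 i n t x (by linarith)]
            have a2 : pd i (fun x => chi S t * g (mol n uh t x)) x =
                (chi S t • (g1 (mol n uh t x) • fderiv ℝ (mol n uh t) x)) (Pi.single i 1) := by
              rw [← a1.fderiv]
              rfl
            rw [a2]
            rfl
          · push Not at hts
            simp only [chi_zero hts, zero_mul]
            unfold pd
            simp
        simp only [e2] at e1
        have ibG : IntegrableOn (fun z : ℝ × (Fin d → ℝ) => chi S z.1 * (g1 (mol n uh z.1 z.2) *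
            ∑ i, b z.1 z.2 i * mol n (Gh i) z.1 z.2)) (Ioo 0 T ×ˢ Q d) := by
          have hw : Continuous (fun z : ℝ × (Fin d → ℝ) => chi S z.1 * g1 (mol n uh z.1 z.2)) :=
            ((chi_smooth S).continuous.comp continuous_fst).mul
              (g1_smooth.continuous.comp hcu)
          have a1 := int_mul_cont measurableSet_Ioo hI1 (integrable_finsetSum Finset.univ
            fun i _ => int_AB (s := Ioo 0 T ×ˢ Q d) (mbi i) (mGn i n) (ibi2 i)
              (int_J (((lGh i).2.1 n).smooth.continuous.pow 2) hI1)) hw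
          refine a1.congr (Eventually.of_forall fun z => ?_)
          simp only
          ring
        rw [← iter_eq ibG]
        refine Eq.trans ?_ e1
        congr 1
        funext t
        congr 1
        funext x
        simp only [Finset.mul_sum]
        exact Finset.sum_congr rfl fun i _ => by ring
    have lim : Tendsto (fun n : ℕ =>
        (∫⁻ z in Ioc (-1) T ×ˢ Q d, ‖mol n Fh z.1 z.2 - Fh z.1 z.2‖ₑ).toReal +
        (∫⁻ z in Ioo 0 T ×ˢ Q d,
          ‖∑ i, b z.1 z.2 i * (mol n (Gh i) z.1 z.2 - Gh i z.1 z.2)‖ₑ).toReal +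
        M * (∫⁻ z in Ioo 0 T ×ˢ Q d, ‖mol n uh z.1 z.2 - uh z.1 z.2‖ₑ).toReal) atTop (𝓝 0) := by
      have a1 := (ENNReal.tendsto_toReal (by norm_num : (0 : ℝ≥0∞) ≠ ⊤)).comp tA
      have a2 := (ENNReal.tendsto_toReal (by norm_num : (0 : ℝ≥0∞) ≠ ⊤)).comp tB
      have a3 := (ENNReal.tendsto_toReal (by norm_num : (0 : ℝ≥0∞) ≠ ⊤)).comp tC
      have a4 := (a1.add a2).add (a3.const_mul M)
      simpa using a4
    have hle := ge_of_tendsto lim key
    have igu : IntegrableOn (fun z : ℝ × (Fin d → ℝ) => - (deriv (chi S) z.1 * g (uh z.1 z.2)))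
        (Ioo 0 T ×ˢ Q d) := by
      refine (int_mul_cont measurableSet_Ioo hI1 ?_ (hcχ'.comp continuous_fst)).neg
      refine iuh.norm.mono' (g_smooth.continuous.comp_aestronglyMeasurable iuh.1)
        (Eventually.of_forall fun z => ?_)
      have := g_lip (uh z.1 z.2) 0
      rw [g_zero, sub_zero, sub_zero] at this
      exact this
    have hnn : ∀ z : ℝ × (Fin d → ℝ), 0 ≤ - (deriv (chi S) z.1 * g (uh z.1 z.2)) := by
      intro z
      have a1 := chi_deriv_nonpos S z.1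
      have a2 := g_nonneg (uh z.1 z.2)
      nlinarith
    rw [← integral_neg] at hle
    have h0 : ∫ z in Ioo 0 T ×ˢ Q d, - (deriv (chi S) z.1 * g (uh z.1 z.2)) = 0 :=
      le_antisymm hle (integral_nonneg hnn)
    rw [integral_eq_zero_iff_of_nonneg hnn igu] at h0
    filter_upwards [h0] with z hz hzS
    have a1 := chi_deriv_neg hzS
    simp only [Pi.zero_apply, neg_eq_zero, mul_eq_zero] at hz
    rcases hz with hz | hz
    · exact absurd hz a1.ne
    · exact g_eq_zero hz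
  have all : ∀ᵐ z ∂(volume.restrict (Ioo 0 T ×ˢ Q d) : Measure (ℝ × (Fin d → ℝ))),
      ∀ k : ℕ, z.1 < T - T / ((k : ℝ) + 2) → uh z.1 z.2 = 0 := by
    rw [ae_all_iff]
    intro k
    refine fin _ ?_
    have : 0 < T / ((k : ℝ) + 2) := by positivity
    linarith
  have all2 : ∀ᵐ z ∂(volume.restrict (Ioo 0 T ×ˢ Q d) : Measure (ℝ × (Fin d → ℝ))),
      u z.1 z.2 = 0 := by
    filter_upwards [all, ae_restrict_mem (measurableSet_Ioo.prod (Q_meas d))] with z hz hzm
    have ht := hzm.1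
    rw [← tr_eq (f := u) ht z.2, ← huh]
    -- choose `k`
    obtain ⟨k, hk⟩ := exists_nat_gt (T / (T - z.1))
    refine hz k ?_
    have a1 : 0 < T - z.1 := by linarith [ht.2]
    have a2 : T / ((k : ℝ) + 2) < T - z.1 := by
      rw [div_lt_iff₀ (by positivity)]
      rw [div_lt_iff₀ a1] at hk
      nlinarith
    linarith
  rw [Measure.volume_eq_prod, ← Measure.prod_restrict] at all2
  exact Measure.ae_ae_of_ae_prod all2

end

end Pool.Agent.Helper18.ND.UNP
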