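import Pool.Agent.Helper18.ND.USpec
import Pool.Agent.H62.ND.KEY1
import Pool.Agent.Helper89.ND.ENER
import Pool.Agent.Helper98.ND.IBP

/-!
# ND: part UNP, the energy inequality for smooth functions
-/

set_option autoImplicit false

namespace Pool.Agent.Helper18.ND.UNP

open MeasureTheory Set Filter Topology Pool.Agent.Helper28.ND Pool.Agent.H62.ND
open Pool.Agent.Helper18.ND
open scoped ENNReal NNReal

noncomputable section

/-- `√(1 + s²)` -/
def sq (s : ℝ) : ℝ := Real.sqrt (1 + s ^ 2)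

def g (s : ℝ) : ℝ := sq s - 1
def g1 (s : ℝ) : ℝ := s / sq s
def g2 (s : ℝ) : ℝ := 1 / sq s ^ 3

theorem sq_pos (s : ℝ) : 0 < sq s := Real.sqrt_pos.2 (by positivity)

theorem sq_sq (s : ℝ) : sq s ^ 2 = 1 + s ^ 2 := Real.sq_sqrt (by positivity)

theorem sq_smooth : ContDiff ℝ (⊤ : ℕ∞) sq := by
  unfold sq
  apply ContDiff.sqrt (by fun_prop)
  intro s
  positivity

theorem g_smooth : ContDiff ℝ (⊤ : ℕ∞) g := sq_smooth.sub contDiff_const

theorem g1_smooth : ContDiff ℝ (⊤ : ℕ∞) g1 :=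
  contDiff_id.div sq_smooth fun s => (sq_pos s).ne'

theorem g2_cont : Continuous g2 :=
  continuous_const.div (sq_smooth.continuous.pow 3) fun s => (pow_pos (sq_pos s) 3).ne'

theorem sq_deriv (s : ℝ) : HasDerivAt sq (g1 s) s := by
  have h1 : HasDerivAt (fun s : ℝ => 1 + s ^ 2) (2 * s) s := by
    simpa using ((hasDerivAt_pow 2 s).const_add 1)
  have h2 : HasDerivAt sq (2 * s / (2 * Real.sqrt (1 + s ^ 2))) s := h1.sqrt (by positivity)
  refine h2.congr_deriv ?_
  unfold g1 sq
  rw [mul_div_mul_left _ _ (by norm_num)]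

theorem g_deriv (s : ℝ) : HasDerivAt g (g1 s) s := (sq_deriv s).sub_const 1

theorem g1_deriv (s : ℝ) : HasDerivAt g1 (g2 s) s := by
  have h2 : HasDerivAt g1 ((1 * sq s - s * g1 s) / sq s ^ 2) s :=
    (hasDerivAt_id s).div (sq_deriv s) (sq_pos s).ne'
  refine h2.congr_deriv ?_
  unfold g2 g1
  have h3 := sq_pos s
  have h4 := sq_sq s
  field_simp
  linarith

theorem g_nonneg (s : ℝ) : 0 ≤ g s := by
  unfold g sq
  have : 1 ≤ Real.sqrt (1 + s ^ 2) := by
    rw [Real.one_le_sqrt]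
    nlinarith [sq_nonneg s]
  linarith

theorem g_eq_zero {s : ℝ} (h : g s = 0) : s = 0 := by
  have h1 := sq_sq s
  have h2 : sq s = 1 := by unfold g at h; linarith
  rw [h2] at h1
  nlinarith

theorem g_zero : g 0 = 0 := by
  unfold g sq
  simp

theorem g2_nonneg (s : ℝ) : 0 ≤ g2 s := by
  unfold g2
  have := sq_pos s
  positivity

theorem g1_le (s : ℝ) : |g1 s| ≤ 1 := by
  unfold g1
  rw [abs_div, abs_of_pos (sq_pos s), div_le_one (sq_pos s)]
  apply Real.abs_le_sqrt
  linarith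

theorem g_lip (a b : ℝ) : |g a - g b| ≤ |a - b| := by
  have h1 := sq_sq a
  have h2 := sq_sq b
  have h3 := sq_pos a
  have h4 := sq_pos b
  have h5 : g a - g b = sq a - sq b := by unfold g; ring
  rw [h5]
  have h6 : |a| ≤ sq a := Real.abs_le_sqrt (by linarith)
  have h7 : |b| ≤ sq b := Real.abs_le_sqrt (by linarith)
  have h8 : (sq a - sq b) * (sq a + sq b) = (a - b) * (a + b) := by nlinarith
  have h9 : |sq a - sq b| * (sq a + sq b) = |a - b| * |a + b| := by
    rw [← abs_mul, ← h8, abs_mul, abs_of_pos (by linarith : 0 < sq a + sq b)]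
  have h10 : |a + b| ≤ sq a + sq b := (abs_add_le a b).trans (add_le_add h6 h7)
  have h11 : |sq a - sq b| * (sq a + sq b) ≤ |a - b| * (sq a + sq b) := by
    rw [h9]
    exact mul_le_mul_of_nonneg_left h10 (abs_nonneg _)
  exact le_of_mul_le_mul_right h11 (by linarith)

variable {d : ℕ}

/-- the integral of `g'(f) Δ f` is nonpositive -/
theorem lap_le (hI : S_IBP) {f : ℝ → (Fin d → ℝ) → ℝ} (hf : SmoothPer f) (t : ℝ) :
    ∫ x in Q d, g1 (f t x) * lap (f t) x ≤ 0 := by
  have hs := Pool.Agent.Helper89.ND.diff_slice hf.smooth t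
  have hdf : ∀ x, HasFDerivAt (f t) (fderiv ℝ (f t) x) x := fun x =>
    (hs.differentiable (by simp) x).hasFDerivAt
  have hsp : ∀ i, ContDiff ℝ (⊤ : ℕ∞) (pd i (f t)) := fun i => by
    have := Pool.Agent.Helper89.ND.diff_slice (f := fun t => pd i (f t))
      (Pool.Agent.Helper89.ND.smooth_pd hf.smooth i) t
    exact this
  have h1 : ∀ i : Fin d, ∫ x in Q d, g1 (f t x) * pd i (pd i (f t)) x =
      - ∫ x in Q d, g2 (f t x) * (pd i (f t) x) ^ 2 := by
    intro i
    have e : ∀ x, pd i (fun x => g1 (f t x) * pd i (f t) x) x =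
        g1 (f t x) * pd i (pd i (f t)) x + g2 (f t x) * (pd i (f t) x) ^ 2 := by
      intro x
      have a1 : HasFDerivAt (fun x => g1 (f t x)) (g2 (f t x) • fderiv ℝ (f t) x) x :=
        (g1_deriv (f t x)).comp_hasFDerivAt x (hdf x)
      have a2 : HasFDerivAt (pd i (f t)) (fderiv ℝ (pd i (f t)) x) x :=
        ((hsp i).differentiable (by simp) x).hasFDerivAt
      have a3 : HasFDerivAt (fun x => g1 (f t x) * pd i (f t) x)
          (g1 (f t x) • fderiv ℝ (pd i (f t)) x + pd i (f t) x • (g2 (f t x) • fderiv ℝ (f t) x))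
          x := a1.mul a2
      have a4 : pd i (fun x => g1 (f t x) * pd i (f t) x) x =
          (g1 (f t x) • fderiv ℝ (pd i (f t)) x + pd i (f t) x • (g2 (f t x) • fderiv ℝ (f t) x))
            (Pi.single i 1) := by
        rw [← a3.fderiv]
        rfl
      rw [a4]
      show g1 (f t x) * (fderiv ℝ (pd i (f t)) x (Pi.single i 1)) +
        pd i (f t) x * (g2 (f t x) * (fderiv ℝ (f t) x (Pi.single i 1))) = _
      show g1 (f t x) * pd i (pd i (f t)) x + pd i (f t) x * (g2 (f t x) * pd i (f t) x) = _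
      ring
    have h0 := hI d (fun x => g1 (f t x) * pd i (f t) x)
      (((g1_smooth.comp hs).mul (hsp i)).of_le (by exact_mod_cast le_top)) (by
        intro x k
        simp only [hf.per t x k, Pool.Agent.Helper89.ND.per_pd (hf.per t) i x k]) i
    simp only [e] at h0
    have c1 : Continuous fun x => g1 (f t x) * pd i (pd i (f t)) x :=
      (g1_smooth.continuous.comp hs.continuous).mul
        (Pool.Agent.Helper98.ND.IBP.cont_pd _ ((hsp i).of_le (by exact_mod_cast le_top)) i)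
    have c2 : Continuous fun x => g2 (f t x) * (pd i (f t) x) ^ 2 :=
      (g2_cont.comp hs.continuous).mul ((hsp i).continuous.pow 2)
    rw [integral_add (Pool.Agent.Helper89.ND.int_Q c1) (Pool.Agent.Helper89.ND.int_Q c2)] at h0
    linarith
  have c1 : ∀ i, Continuous fun x => g1 (f t x) * pd i (pd i (f t)) x := fun i =>
    (g1_smooth.continuous.comp hs.continuous).mul
      (Pool.Agent.Helper98.ND.IBP.cont_pd _ ((hsp i).of_le (by exact_mod_cast le_top)) i)
  unfold lap
  simp only [Finset.mul_sum]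
  rw [integral_finsetSum _ fun i _ => Pool.Agent.Helper89.ND.int_Q (c1 i)]
  refine Finset.sum_nonpos fun i _ => ?_
  rw [h1 i, neg_nonpos]
  exact integral_nonneg fun x => mul_nonneg (g2_nonneg _) (sq_nonneg _)

/-- integrability of continuous functions -/
theorem int_J {F : ℝ × (Fin d → ℝ) → ℝ} (hF : Continuous F) {J : Set ℝ} {a b : ℝ}
    (hJ : J ⊆ Icc a b) : IntegrableOn F (J ×ˢ Q d) := by
  have h := Pool.Agent.Helper89.ND.int_prod hF a b hJ
  rw [Measure.prod_restrict] at h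
  rw [IntegrableOn, Measure.volume_eq_prod]
  exact h

/-- the energy inequality for smooth functions -/
theorem energy_ineq (hI : S_IBP) {f : ℝ → (Fin d → ℝ) → ℝ} (hf : SmoothPer f) {χ χ' : ℝ → ℝ}
    (hd : ∀ t, HasDerivAt χ (χ' t) t) (hc : Continuous χ') (h0 : ∀ t, 0 ≤ χ t) {T : ℝ}
    (hT : -1 ≤ T) (hf0 : ∀ x, f (-1) x = 0) (hχT : χ T = 0) :
    - ∫ z in Ioc (-1) T ×ˢ Q d, χ' z.1 * g (f z.1 z.2) ≤
      ∫ z in Ioc (-1) T ×ˢ Q d, χ z.1 * (g1 (f z.1 z.2) * (dt f z.1 z.2 - lap (f z.1) z.2)) := by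
  have hcχ : Continuous χ := continuous_iff_continuousAt.2 fun t => (hd t).continuousAt
  have hcf : Continuous (fun z : ℝ × (Fin d → ℝ) => f z.1 z.2) := hf.smooth.continuous
  have hcdt : Continuous (fun z : ℝ × (Fin d → ℝ) => dt f z.1 z.2) :=
    (Pool.Agent.Helper89.ND.smooth_dt hf.smooth).continuous
  have hclap : Continuous (fun z : ℝ × (Fin d → ℝ) => lap (f z.1) z.2) := by
    unfold lap
    refine continuous_finsetSum _ fun i _ => ?_
    have := Pool.Agent.Helper89.ND.smooth_pd (f := fun t => pd i (f t))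
      (Pool.Agent.Helper89.ND.smooth_pd hf.smooth i) i
    exact this.continuous
  have c1 : Continuous (fun z : ℝ × (Fin d → ℝ) => χ' z.1 * g (f z.1 z.2)) :=
    (hc.comp continuous_fst).mul (g_smooth.continuous.comp hcf)
  have c2 : Continuous (fun z : ℝ × (Fin d → ℝ) => χ z.1 * (g1 (f z.1 z.2) * dt f z.1 z.2)) :=
    (hcχ.comp continuous_fst).mul ((g1_smooth.continuous.comp hcf).mul hcdt)
  have c3 : Continuous (fun z : ℝ × (Fin d → ℝ) => χ z.1 * (g1 (f z.1 z.2) * lap (f z.1) z.2)) :=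
    (hcχ.comp continuous_fst).mul ((g1_smooth.continuous.comp hcf).mul hclap)
  have hJ : Ioc (-1) T ⊆ Icc (-1) T := Ioc_subset_Icc_self
  have i1 := int_J c1 hJ
  have i2 := int_J c2 hJ
  have i3 := int_J c3 hJ
  -- the time derivative
  have e1 : ∫ z in Ioc (-1) T ×ˢ Q d, (χ' z.1 * g (f z.1 z.2)
      + χ z.1 * (g1 (f z.1 z.2) * dt f z.1 z.2)) = 0 := by
    have i12 : IntegrableOn (fun z : ℝ × (Fin d → ℝ) => χ' z.1 * g (f z.1 z.2)
      + χ z.1 * (g1 (f z.1 z.2) * dt f z.1 z.2)) (Ioc (-1) T ×ˢ Q d) := i1.add i2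
    rw [IntegrableOn, Measure.volume_eq_prod, ← Measure.prod_restrict] at i12
    rw [Measure.volume_eq_prod, ← Measure.prod_restrict, integral_prod_symm _ i12]
    have : ∀ x, ∫ t in Ioc (-1) T, (χ' t * g (f t x) + χ t * (g1 (f t x) * dt f t x)) = 0 := by
      intro x
      have hder : ∀ t ∈ uIcc (-1) T, HasDerivAt (fun t => χ t * g (f t x))
          (χ' t * g (f t x) + χ t * (g1 (f t x) * dt f t x)) t := by
        intro t _
        have b1 := Pool.Agent.Helper89.ND.deriv_slice hf.smooth t x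
        have b2 : dt f t x = fderiv ℝ (U f) (t, x) (1, 0) := b1.deriv
        rw [b2]
        have b3 : HasDerivAt (g ∘ fun s => f s x)
            (g1 (f t x) * (fderiv ℝ (U f) (t, x)) (1, 0)) t :=
          HasDerivAt.comp t (g_deriv (f t x)) b1
        exact (hd t).mul b3
      have hcont : Continuous (fun t => χ' t * g (f t x) + χ t * (g1 (f t x) * dt f t x)) :=
        (c1.add c2).comp (continuous_id.prodMk continuous_const)
      have h5 := intervalIntegral.integral_eq_sub_of_hasDerivAt hder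
        (hcont.intervalIntegrable _ _)
      rw [intervalIntegral.integral_of_le hT] at h5
      rw [h5, hχT, hf0, g_zero]
      ring
    simp only [this, integral_zero]
  rw [integral_add i1 i2] at e1
  -- the Laplacian
  have e2 : ∫ z in Ioc (-1) T ×ˢ Q d, χ z.1 * (g1 (f z.1 z.2) * lap (f z.1) z.2) ≤ 0 := by
    rw [← iter_eq i3]
    refine integral_nonpos fun t => ?_
    simp only
    rw [integral_const_mul]
    exact mul_nonpos_of_nonneg_of_nonpos (h0 t) (lap_le hI hf t)
  have e3 : ∫ z in Ioc (-1) T ×ˢ Q d, χ z.1 * (g1 (f z.1 z.2) * (dt f z.1 z.2 - lap (f z.1) z.2))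
      = (∫ z in Ioc (-1) T ×ˢ Q d, χ z.1 * (g1 (f z.1 z.2) * dt f z.1 z.2))
      - ∫ z in Ioc (-1) T ×ˢ Q d, χ z.1 * (g1 (f z.1 z.2) * lap (f z.1) z.2) := by
    rw [← integral_sub i2 i3]
    congr 1
    funext z
    ring
  rw [e3]
  linarith

/-- the weight `χ` -/
def chi (S : ℝ) (t : ℝ) : ℝ := expNegInvGlue (S - t)

theorem chi_smooth (S : ℝ) : ContDiff ℝ (⊤ : ℕ∞) (chi S) :=
  expNegInvGlue.contDiff.comp (contDiff_const.sub contDiff_id)

theorem chi_deriv (S t : ℝ) : HasDerivAt (chi S) (deriv (chi S) t) t :=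
  ((chi_smooth S).differentiable (by simp) t).hasDerivAt

theorem chi_nonneg (S t : ℝ) : 0 ≤ chi S t := expNegInvGlue.nonneg _

theorem chi_le (S t : ℝ) : chi S t ≤ 1 := by
  unfold chi expNegInvGlue
  split_ifs with h
  · norm_num
  · push Not at h
    rw [Real.exp_le_one_iff, neg_nonpos]
    positivity

theorem chi_zero {S t : ℝ} (h : S ≤ t) : chi S t = 0 :=
  expNegInvGlue.zero_of_nonpos (by linarith)

theorem chi_anti (S : ℝ) : Antitone (chi S) := fun a b hab =>
  expNegInvGlue.monotone (by linarith)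

theorem chi_deriv_nonpos (S t : ℝ) : deriv (chi S) t ≤ 0 := (chi_anti S).deriv_nonpos

theorem chi_deriv_neg {S t : ℝ} (h : t < S) : deriv (chi S) t < 0 := by
  have h1 : HasDerivAt (fun t => Real.exp (-(S - t)⁻¹))
      (Real.exp (-(S - t)⁻¹) * (-(-(-1) / (S - t) ^ 2))) t := by
    have a1 : HasDerivAt (fun t => S - t) (-1) t := by
      simpa using (hasDerivAt_id t).const_sub S
    exact ((a1.inv (by linarith)).neg).exp
  have h2 : chi S =ᶠ[𝓝 t] fun t => Real.exp (-(S - t)⁻¹) := by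
    filter_upwards [gt_mem_nhds h] with s hs
    unfold chi expNegInvGlue
    rw [if_neg (by linarith)]
  rw [h2.deriv_eq, h1.deriv]
  have h3 : 0 < (S - t) ^ 2 := by
    have : 0 < S - t := by linarith
    positivity
  have h4 := Real.exp_pos (-(S - t)⁻¹)
  have h5 : -(-(-1) / (S - t) ^ 2) < 0 := by
    rw [neg_neg, neg_lt_zero]
    positivity
  nlinarith

end

end Pool.Agent.Helper18.ND.UNP
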