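import Pool.Agent.Helper18.ND.UNPa

/-!
# ND: part UNP, measure-theoretic tools and the one-step inequality
-/

set_option autoImplicit false

namespace Pool.Agent.Helper18.ND.UNP

open MeasureTheory Set Filter Topology Pool.Agent.Helper28.ND Pool.Agent.H62.ND
open Pool.Agent.Helper18.ND
open scoped ENNReal NNReal

noncomputable section

variable {d : ℕ}

theorem ub {F : ℝ × (Fin d → ℝ) → ℝ} (hF : Continuous F) (a b : ℝ) :
    ∃ M : ℝ, 0 ≤ M ∧ ∀ z : ℝ × (Fin d → ℝ), z.1 ∈ Icc a b → z.2 ∈ Q d → |F z| ≤ M := by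
  have hcomp : IsCompact (Icc a b ×ˢ Icc (0 : Fin d → ℝ) 1) := isCompact_Icc.prod isCompact_Icc
  obtain ⟨B, hB⟩ := hcomp.exists_bound_of_continuousOn hF.continuousOn
  refine ⟨max B 0, le_max_right _ _, fun z h1 h2 => ?_⟩
  exact (hB z ⟨h1, Pool.Agent.Helper89.ND.Q_subset d h2⟩).trans (le_max_left _ _)

theorem int_mul_cont {H F : ℝ × (Fin d → ℝ) → ℝ} {J : Set ℝ} (hJm : MeasurableSet J) {a b : ℝ}
    (hJ : J ⊆ Icc a b) (hH : IntegrableOn H (J ×ˢ Q d)) (hF : Continuous F) :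
    IntegrableOn (fun z => F z * H z) (J ×ˢ Q d) := by
  obtain ⟨M, hM, hb⟩ := ub hF a b
  refine Integrable.mono' (hH.norm.const_mul M) (hF.aestronglyMeasurable.mul hH.1) ?_
  rw [ae_restrict_iff' (hJm.prod (Q_meas d))]
  refine Eventually.of_forall fun z hz => ?_
  rw [norm_mul, Real.norm_eq_abs]
  exact mul_le_mul_of_nonneg_right (hb z (hJ hz.1) hz.2) (norm_nonneg _)

theorem int_AB {A B : ℝ × (Fin d → ℝ) → ℝ} {s : Set (ℝ × (Fin d → ℝ))} (hA : Measurable A)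
    (hB : Measurable B) (iA : IntegrableOn (fun z => A z ^ 2) s)
    (iB : IntegrableOn (fun z => B z ^ 2) s) : IntegrableOn (fun z => A z * B z) s := by
  refine (iA.add iB).mono' (hA.mul hB).aestronglyMeasurable (Eventually.of_forall fun z => ?_)
  rw [Real.norm_eq_abs, Pi.add_apply, abs_mul, ← sq_abs (A z), ← sq_abs (B z)]
  nlinarith [sq_nonneg (|A z| - |B z|), sq_nonneg (|A z|), sq_nonneg (|B z|)]

theorem int_sq {A : ℝ × (Fin d → ℝ) → ℝ} {I : Set ℝ} (hA : Measurable A)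
    (h : (∫⁻ t in I, ∫⁻ x in Q d, ‖A (t, x)‖ₑ ^ 2) < ⊤) :
    IntegrableOn (fun z => A z ^ 2) (I ×ˢ Q d) := by
  have m : Measurable fun z => A z ^ 2 := hA.pow_const 2
  refine ⟨m.aestronglyMeasurable, ?_⟩
  rw [hasFiniteIntegral_iff_enorm, KEY1.iterL m.enorm]
  refine lt_of_eq_of_lt ?_ h
  simp only [enorm_pow]

/-- Cauchy-Schwarz for sequences -/
theorem cs_tendsto {X : Type} [MeasurableSpace X] {μ : Measure X} {β : X → ℝ≥0∞}
    {α : ℕ → X → ℝ≥0∞} (hβ : Measurable β) (hα : ∀ n, Measurable (α n))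
    (h1 : ∫⁻ x, β x ^ 2 ∂μ < ⊤) (h2 : Tendsto (fun n => ∫⁻ x, α n x ^ 2 ∂μ) atTop (𝓝 0)) :
    Tendsto (fun n => ∫⁻ x, β x * α n x ∂μ) atTop (𝓝 0) := by
  have h3 : ∀ n, ∫⁻ x, β x * α n x ∂μ ≤
      (∫⁻ x, β x ^ 2 ∂μ) ^ (1 / 2 : ℝ) * (∫⁻ x, α n x ^ 2 ∂μ) ^ (1 / 2 : ℝ) := by
    intro n
    have := ENNReal.lintegral_mul_le_Lp_mul_Lq μ (Real.HolderConjugate.two_two)
      hβ.aemeasurable (hα n).aemeasurable
    simpa [ENNReal.rpow_two] using this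
  have h4 : Tendsto (fun n => (∫⁻ x, β x ^ 2 ∂μ) ^ (1 / 2 : ℝ) *
      (∫⁻ x, α n x ^ 2 ∂μ) ^ (1 / 2 : ℝ)) atTop (𝓝 0) := by
    have h5 : Tendsto (fun n => (∫⁻ x, α n x ^ 2 ∂μ) ^ (1 / 2 : ℝ)) atTop (𝓝 (0 ^ (1 / 2 : ℝ))) :=
      ((ENNReal.continuous_rpow_const (y := 1 / 2)).tendsto 0).comp h2
    rw [ENNReal.zero_rpow_of_pos (by norm_num)] at h5
    have h6 := ENNReal.Tendsto.const_mul (a := (∫⁻ x, β x ^ 2 ∂μ) ^ (1 / 2 : ℝ)) h5
      (Or.inr (ENNReal.rpow_lt_top_of_nonneg (by norm_num) h1.ne).ne)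
    rwa [mul_zero] at h6
  exact tendsto_of_tendsto_of_tendsto_of_le_of_le tendsto_const_nhds h4 (fun n => zero_le) h3

/-- integrability on `J × Q` from local integrability -/
theorem int_loc {f : ℝ × (Fin d → ℝ) → ℝ} (h : LocallyIntegrable f volume) {J : Set ℝ} {a b : ℝ}
    (hJ : J ⊆ Icc a b) : IntegrableOn f (J ×ˢ Q d) :=
  (h.integrableOn_isCompact (isCompact_Icc.prod isCompact_Icc)).mono_set
    (prod_mono hJ (Pool.Agent.Helper89.ND.Q_subset d))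

theorem abs_int_le {X : Type} [MeasurableSpace X] {μ : Measure X} {h k : X → ℝ}
    (hk : ∫⁻ x, ‖k x‖ₑ ∂μ ≠ ⊤) (hle : ∀ x, |h x| ≤ |k x|) :
    |∫ x, h x ∂μ| ≤ (∫⁻ x, ‖k x‖ₑ ∂μ).toReal := by
  have h1 : ‖∫ x, h x ∂μ‖ₑ ≤ ∫⁻ x, ‖k x‖ₑ ∂μ := by
    refine (enorm_integral_le_lintegral_enorm _).trans (lintegral_mono fun x => ?_)
    rw [Real.enorm_eq_ofReal_abs, Real.enorm_eq_ofReal_abs]
    exact ENNReal.ofReal_le_ofReal (hle x)
  have h2 := ENNReal.toReal_mono hk h1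
  rwa [toReal_enorm, Real.norm_eq_abs] at h2

/-- the one-step inequality -/
theorem step (hI : S_IBP) {T S : ℝ} (hT : 0 < T) (hS : S < T)
    {u F : ℝ → (Fin d → ℝ) → ℝ} {G : Fin d → ℝ → (Fin d → ℝ) → ℝ}
    {b : ℝ → (Fin d → ℝ) → (Fin d → ℝ)}
    (hF : ∀ t x, F t x = ∑ i, b t x i * G i t x) (hFoff : ∀ t, (t ≤ 0 ∨ T ≤ t) → ∀ x, F t x = 0)
    (lF : LocallyIntegrable (U F) (volume : Measure (ℝ × (Fin d → ℝ))))
    (lu : LocallyIntegrable (U u) (volume : Measure (ℝ × (Fin d → ℝ))))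
    {un Fn : ℝ → (Fin d → ℝ) → ℝ} {Gn : Fin d → ℝ → (Fin d → ℝ) → ℝ}
    (sun : SmoothPer un) (sFn : SmoothPer Fn) (sGn : ∀ i, SmoothPer (Gn i))
    (un0 : ∀ x, un (-1) x = 0)
    (hdt : ∀ t x, t < S → dt un t x = lap (un t) x - Fn t x)
    (hbm : Measurable (U b)) (ib : IntegrableOn (fun z : ℝ × (Fin d → ℝ) => ‖b z.1 z.2‖ ^ 2)
      (Ioo 0 T ×ˢ Q d))
    (hdrift : ∫ z in Ioo 0 T ×ˢ Q d, chi S z.1 * (g1 (un z.1 z.2) *
      ∑ i, b z.1 z.2 i * Gn i z.1 z.2) = 0)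
    {M : ℝ} (hM : ∀ t ∈ Ioo 0 T, |deriv (chi S) t| ≤ M)
    (hA : ∫⁻ z in Ioc (-1) T ×ˢ Q d, ‖Fn z.1 z.2 - F z.1 z.2‖ₑ ≠ ⊤)
    (hB : ∫⁻ z in Ioo 0 T ×ˢ Q d, ‖∑ i, b z.1 z.2 i * (Gn i z.1 z.2 - G i z.1 z.2)‖ₑ ≠ ⊤)
    (hC : ∫⁻ z in Ioo 0 T ×ˢ Q d, ‖un z.1 z.2 - u z.1 z.2‖ₑ ≠ ⊤) :
    - ∫ z in Ioo 0 T ×ˢ Q d, deriv (chi S) z.1 * g (u z.1 z.2) ≤
      (∫⁻ z in Ioc (-1) T ×ˢ Q d, ‖Fn z.1 z.2 - F z.1 z.2‖ₑ).toReal +
      (∫⁻ z in Ioo 0 T ×ˢ Q d, ‖∑ i, b z.1 z.2 i * (Gn i z.1 z.2 - G i z.1 z.2)‖ₑ).toReal +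
      M * (∫⁻ z in Ioo 0 T ×ˢ Q d, ‖un z.1 z.2 - u z.1 z.2‖ₑ).toReal := by
  have hcχ : Continuous (chi S) := (chi_smooth S).continuous
  have hcχ' : Continuous (deriv (chi S)) := (chi_smooth S).continuous_deriv (by simp)
  have hcu : Continuous (fun z : ℝ × (Fin d → ℝ) => un z.1 z.2) := sun.smooth.continuous
  have hcF : Continuous (fun z : ℝ × (Fin d → ℝ) => Fn z.1 z.2) := sFn.smooth.continuous
  have hcG : ∀ i, Continuous (fun z : ℝ × (Fin d → ℝ) => Gn i z.1 z.2) := fun i =>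
    (sGn i).smooth.continuous
  have hJ : Ioc (-1) T ⊆ Icc (-1) T := Ioc_subset_Icc_self
  have hI1 : Ioo 0 T ⊆ Icc (-1) T := fun t ht => ⟨by linarith [ht.1], ht.2.le⟩
  have hIJ : Ioo 0 T ⊆ Ioc (-1) T := fun t ht => ⟨by linarith [ht.1], ht.2.le⟩
  have hw : Continuous (fun z : ℝ × (Fin d → ℝ) => chi S z.1 * g1 (un z.1 z.2)) :=
    (hcχ.comp continuous_fst).mul (g1_smooth.continuous.comp hcu)
  have hw1 : ∀ z : ℝ × (Fin d → ℝ), |chi S z.1 * g1 (un z.1 z.2)| ≤ 1 := by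
    intro z
    rw [abs_mul, abs_of_nonneg (chi_nonneg S _)]
    exact mul_le_one₀ (chi_le S _) (abs_nonneg _) (g1_le _)
  -- the energy inequality
  have e0 := energy_ineq hI sun (chi_deriv S) hcχ' (chi_nonneg S) (by linarith) un0
    (chi_zero hS.le)
  have e1 : ∀ z : ℝ × (Fin d → ℝ), chi S z.1 * (g1 (un z.1 z.2) *
      (dt un z.1 z.2 - lap (un z.1) z.2)) =
      - ((chi S z.1 * g1 (un z.1 z.2)) * (Fn z.1 z.2 - F z.1 z.2))
      - (chi S z.1 * g1 (un z.1 z.2)) * F z.1 z.2 := by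
    intro z
    by_cases hz : z.1 < S
    · rw [hdt z.1 z.2 hz]
      ring
    · push Not at hz
      rw [chi_zero hz]
      ring
  simp only [e1] at e0
  have iF : IntegrableOn (fun z : ℝ × (Fin d → ℝ) => F z.1 z.2) (Ioc (-1) T ×ˢ Q d) :=
    int_loc lF hJ
  have iFn : IntegrableOn (fun z : ℝ × (Fin d → ℝ) => Fn z.1 z.2) (Ioc (-1) T ×ˢ Q d) :=
    int_J hcF hJ
  have iw : IntegrableOn (fun z : ℝ × (Fin d → ℝ) => (chi S z.1 * g1 (un z.1 z.2)) *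
      (Fn z.1 z.2 - F z.1 z.2)) (Ioc (-1) T ×ˢ Q d) :=
    int_mul_cont measurableSet_Ioc hJ (iFn.sub iF) hw
  have iwF : IntegrableOn (fun z : ℝ × (Fin d → ℝ) => (chi S z.1 * g1 (un z.1 z.2)) *
      F z.1 z.2) (Ioc (-1) T ×ˢ Q d) := int_mul_cont measurableSet_Ioc hJ iF hw
  have e2 : ∫ z in Ioc (-1) T ×ˢ Q d, (- ((chi S z.1 * g1 (un z.1 z.2)) *
      (Fn z.1 z.2 - F z.1 z.2)) - (chi S z.1 * g1 (un z.1 z.2)) * F z.1 z.2) =
      - (∫ z in Ioc (-1) T ×ˢ Q d, (chi S z.1 * g1 (un z.1 z.2)) * (Fn z.1 z.2 - F z.1 z.2))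
      - ∫ z in Ioc (-1) T ×ˢ Q d, (chi S z.1 * g1 (un z.1 z.2)) * F z.1 z.2 := by
    have := integral_sub iw.neg iwF
    rw [← integral_neg]
    exact this
  rw [e2] at e0
  -- `F` vanishes off `I`
  have e3 : ∫ z in Ioc (-1) T ×ˢ Q d, (chi S z.1 * g1 (un z.1 z.2)) * F z.1 z.2 =
      ∫ z in Ioo 0 T ×ˢ Q d, (chi S z.1 * g1 (un z.1 z.2)) * F z.1 z.2 := by
    refine setIntegral_eq_of_subset_of_forall_sdiff_eq_zero (μ := volume)
      (measurableSet_Ioc.prod (Q_meas d)) (prod_mono hIJ le_rfl) ?_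
    intro z hz
    have : F z.1 z.2 = 0 := hFoff z.1 (by
      by_contra hcon
      push Not at hcon
      exact hz.2 ⟨⟨hcon.1, hcon.2⟩, hz.1.2⟩) z.2
    rw [this, mul_zero]
  -- the drift
  have ibG : ∀ i, IntegrableOn (fun z : ℝ × (Fin d → ℝ) => b z.1 z.2 i * Gn i z.1 z.2)
      (Ioo 0 T ×ˢ Q d) := by
    intro i
    have mbi : Measurable (fun z : ℝ × (Fin d → ℝ) => b z.1 z.2 i) :=
      (measurable_pi_apply i).comp hbm
    refine int_AB mbi (hcG i).measurable ?_ (int_J ((hcG i).pow 2) hI1)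
    refine ib.mono' (mbi.pow_const 2).aestronglyMeasurable (Eventually.of_forall fun z => ?_)
    rw [Real.norm_eq_abs, abs_pow]
    exact pow_le_pow_left₀ (abs_nonneg _) (norm_le_pi_norm (b z.1 z.2) i) 2
  have ibGs : IntegrableOn (fun z : ℝ × (Fin d → ℝ) => (chi S z.1 * g1 (un z.1 z.2)) *
      ∑ i, b z.1 z.2 i * Gn i z.1 z.2) (Ioo 0 T ×ˢ Q d) :=
    int_mul_cont measurableSet_Ioo hI1 (integrable_finsetSum _ fun i _ => ibG i) hw
  have iwF2 : IntegrableOn (fun z : ℝ × (Fin d → ℝ) => (chi S z.1 * g1 (un z.1 z.2)) *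
      F z.1 z.2) (Ioo 0 T ×ˢ Q d) := iwF.mono_set (prod_mono hIJ le_rfl)
  have e4 : - ∫ z in Ioo 0 T ×ˢ Q d, (chi S z.1 * g1 (un z.1 z.2)) * F z.1 z.2 =
      ∫ z in Ioo 0 T ×ˢ Q d, (chi S z.1 * g1 (un z.1 z.2)) *
        ∑ i, b z.1 z.2 i * (Gn i z.1 z.2 - G i z.1 z.2) := by
    have h1 : ∀ z : ℝ × (Fin d → ℝ), (chi S z.1 * g1 (un z.1 z.2)) *
        ∑ i, b z.1 z.2 i * (Gn i z.1 z.2 - G i z.1 z.2) =
        (chi S z.1 * g1 (un z.1 z.2)) * (∑ i, b z.1 z.2 i * Gn i z.1 z.2) -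
        (chi S z.1 * g1 (un z.1 z.2)) * F z.1 z.2 := by
      intro z
      rw [hF, ← mul_sub, ← Finset.sum_sub_distrib]
      congr 1
      exact Finset.sum_congr rfl fun i _ => by ring
    simp only [h1]
    rw [integral_sub ibGs iwF2]
    have h2 : ∫ z in Ioo 0 T ×ˢ Q d, (chi S z.1 * g1 (un z.1 z.2)) *
        ∑ i, b z.1 z.2 i * Gn i z.1 z.2 = 0 := by
      refine Eq.trans ?_ hdrift
      congr 1
      funext z
      ring
    rw [h2, zero_sub]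
  -- the two error terms
  have b1 := abs_int_le (μ := volume.restrict (Ioc (-1) T ×ˢ Q d))
    (h := fun z => (chi S z.1 * g1 (un z.1 z.2)) * (Fn z.1 z.2 - F z.1 z.2)) hA (fun z => by
      rw [abs_mul]
      exact mul_le_of_le_one_left (abs_nonneg _) (hw1 z))
  have b2 := abs_int_le (μ := volume.restrict (Ioo 0 T ×ˢ Q d))
    (h := fun z => (chi S z.1 * g1 (un z.1 z.2)) *
        ∑ i, b z.1 z.2 i * (Gn i z.1 z.2 - G i z.1 z.2)) hB (fun z => by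
      rw [abs_mul]
      exact mul_le_of_le_one_left (abs_nonneg _) (hw1 z))
  -- the left side
  have ig : IntegrableOn (fun z : ℝ × (Fin d → ℝ) => deriv (chi S) z.1 * g (un z.1 z.2))
      (Ioc (-1) T ×ˢ Q d) :=
    int_J ((hcχ'.comp continuous_fst).mul (g_smooth.continuous.comp hcu)) hJ
  have iu : IntegrableOn (fun z : ℝ × (Fin d → ℝ) => u z.1 z.2) (Ioo 0 T ×ˢ Q d) :=
    int_loc lu hI1
  have iun : IntegrableOn (fun z : ℝ × (Fin d → ℝ) => un z.1 z.2) (Ioo 0 T ×ˢ Q d) :=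
    int_J hcu hI1
  have igu : IntegrableOn (fun z : ℝ × (Fin d → ℝ) => deriv (chi S) z.1 * g (u z.1 z.2))
      (Ioo 0 T ×ˢ Q d) := by
    refine int_mul_cont measurableSet_Ioo hI1 ?_ (hcχ'.comp continuous_fst)
    refine iu.norm.mono' (g_smooth.continuous.comp_aestronglyMeasurable iu.1)
      (Eventually.of_forall fun z => ?_)
    have := g_lip (u z.1 z.2) 0
    rw [g_zero, sub_zero, sub_zero] at this
    exact this
  have l1 : - ∫ z in Ioo 0 T ×ˢ Q d, deriv (chi S) z.1 * g (un z.1 z.2) ≤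
      - ∫ z in Ioc (-1) T ×ˢ Q d, deriv (chi S) z.1 * g (un z.1 z.2) := by
    rw [← integral_neg, ← integral_neg]
    refine setIntegral_mono_set ig.neg ?_ (prod_mono hIJ le_rfl).eventuallyLE
    refine Eventually.of_forall fun z => ?_
    simp only [Pi.zero_apply, Pi.neg_apply]
    have h1 := chi_deriv_nonpos S z.1
    have h2 := g_nonneg (un z.1 z.2)
    nlinarith
  have l2 : - ∫ z in Ioo 0 T ×ˢ Q d, deriv (chi S) z.1 * g (u z.1 z.2) ≤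
      - (∫ z in Ioo 0 T ×ˢ Q d, deriv (chi S) z.1 * g (un z.1 z.2)) +
      M * (∫⁻ z in Ioo 0 T ×ˢ Q d, ‖un z.1 z.2 - u z.1 z.2‖ₑ).toReal := by
    have h1 : (∫ z in Ioo 0 T ×ˢ Q d, deriv (chi S) z.1 * g (un z.1 z.2)) -
        ∫ z in Ioo 0 T ×ˢ Q d, deriv (chi S) z.1 * g (u z.1 z.2) ≤
        ∫ z in Ioo 0 T ×ˢ Q d, M * |un z.1 z.2 - u z.1 z.2| := by
      rw [← integral_sub (ig.mono_set (prod_mono hIJ le_rfl)) igu]
      refine integral_mono_ae ((ig.mono_set (prod_mono hIJ le_rfl)).sub igu)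
        ((iun.sub iu).norm.const_mul M) ?_
      rw [EventuallyLE, ae_restrict_iff' (measurableSet_Ioo.prod (Q_meas d))]
      refine Eventually.of_forall fun z hz => ?_
      rw [← mul_sub]
      refine (le_abs_self _).trans ?_
      rw [abs_mul]
      exact mul_le_mul (hM z.1 hz.1) (g_lip _ _) (abs_nonneg _)
        ((abs_nonneg _).trans (hM z.1 hz.1))
    have h2 : ∫ z in Ioo 0 T ×ˢ Q d, M * |un z.1 z.2 - u z.1 z.2| =
        M * (∫⁻ z in Ioo 0 T ×ˢ Q d, ‖un z.1 z.2 - u z.1 z.2‖ₑ).toReal := by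
      rw [integral_const_mul]
      congr 1
      exact integral_norm_eq_lintegral_enorm (iun.sub iu).1
    linarith
  have h1 := (abs_le.1 b1).1
  have h2 := (abs_le.1 b2).2
  linarith

end

end Pool.Agent.Helper18.ND.UNP
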