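import Pool.Agent.Helper18.ND.UNP
import Pool.Agent.Helper18.ND.U4
import Pool.Agent.Helper96.ND.U1
import Pool.Agent.Helper96.ND.U5
import Pool.Agent.Helper85.ND.U2
import Pool.Agent.Helper85.ND.U3
import Pool.Agent.Helper85.ND.U6
import Pool.Agent.Helper98.ND.IBP
import Pool.Agent.Helper98.ND.INTG

/-!
# ND: part UNP, assembled
-/

set_option autoImplicit false

namespace Pool.Agent.Helper18.ND.UNP

open Pool.Agent.Helper28.ND Pool.Agent.Helper18.ND

theorem unp : S_UNP := by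
  have u1 : S_U1 := Pool.Agent.Helper96.ND.U1.main
  have u2 : S_U2 := Pool.Agent.Helper85.ND.U2.main
  have u3 : S_U3 := Pool.Agent.Helper85.ND.U3.main u1 u2 Pool.Agent.Helper87.ND.MOLG.main
  have u4 : S_U4 := Pool.Agent.Helper18.ND.U4.main u1 u2
  have u5 : S_U5 := Pool.Agent.Helper96.ND.U5.main
  have u6 : S_U6 := Pool.Agent.Helper85.ND.U6.main u1 u2 u3 u4 Pool.Agent.Helper75.ND.DIV2.main
  exact main u1 u3 u4 u5 u6 Pool.Agent.Helper98.ND.IBP.main Pool.Agent.Helper75.ND.DIV2.main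
    Pool.Agent.Helper98.ND.INTG.main

end Pool.Agent.Helper18.ND.UNP
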