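import Pool.Agent.Helper28.ND.Spec2

/-!
# MP_0c2f33_an: sub-parts of `S_UNP` (uniqueness of parabolic solutions)

All functions are extended by zero to times outside `(0,T)`.  `u` is the solution, `G` its weak
gradient, `F = ∑ b_i G_i` is integrable; `∂_t u = Δ u - F` on `(-∞, T)`.
-/

set_option autoImplicit false

namespace Pool.Agent.Helper18.ND

open MeasureTheory Set Filter Topology Pool.Agent.Helper28.ND
open scoped ENNReal NNReal

noncomputable section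

/-- measurable, periodic in space, zero for times outside `(0,T)`, in `L^r` for `r = 1` or `2` -/
structure PL (r : ℕ) {d : ℕ} (T : ℝ) (f : ℝ → (Fin d → ℝ) → ℝ) : Prop where
  meas : Measurable (U f)
  per : ∀ t, Per (f t)
  off : ∀ t, (t ≤ 0 ∨ T ≤ t) → ∀ x, f t x = 0
  int : (∫⁻ t in Ioo 0 T, ∫⁻ x in Q d, ‖f t x‖ₑ ^ r) < ⊤

/-- U1 (60 lines): local integrability (cover a ball by finitely many integer translates of
`ℝ × Q`), hence the mollifications are smooth (copy of `Helper87/ND/MOLG.lean` `smoothPer`), and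
they vanish for times outside `(-1/(4(n+1)), T + 1/(4(n+1)))`. -/
def S_U1 : Prop := ∀ (r d : ℕ) (T : ℝ) (f : ℝ → (Fin d → ℝ) → ℝ), (r = 1 ∨ r = 2) → 0 < T →
  PL r T f → LocallyIntegrable (U f) (volume : Measure (ℝ × (Fin d → ℝ))) ∧
    (∀ n, SmoothPer (mol n f)) ∧
    ∀ (n : ℕ) t, (t ≤ - (1 / (4 * ((n : ℝ) + 1))) ∨ T + 1 / (4 * ((n : ℝ) + 1)) ≤ t) →
      ∀ x, mol n f t x = 0

/-- U2 (60 lines): shifts (both `Q` and `Q + a` are fundamental domains of the integer lattice,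
`IsAddFundamentalDomain.setIntegral_eq`, `lintegral_eq`). -/
def S_U2 : Prop := ∀ (d : ℕ) (a : Fin d → ℝ),
  (∀ h : (Fin d → ℝ) → ℝ, Per h → ∫ x in Q d, h (x + a) = ∫ x in Q d, h x) ∧
  ∀ h : (Fin d → ℝ) → ℝ≥0∞, Measurable h → Per h → ∫⁻ x in Q d, h (x + a) = ∫⁻ x in Q d, h x

/-- U3 (150 lines): convergence of the mollifications in `L^r`: for bounded `f` a.e. convergence
(`S_MOLG`) and dominated convergence; the contraction `∫∫ |mol n f|^r ≤ ∫∫ |f|^r` (over all times;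
Tonelli, U2, and Jensen/Cauchy-Schwarz for `r = 2`); truncation `f 1_{|f| ≤ k}`. -/
def S_U3 : Prop := ∀ (r d : ℕ) (T : ℝ) (f : ℝ → (Fin d → ℝ) → ℝ), (r = 1 ∨ r = 2) → 0 < T →
  PL r T f → Tendsto (fun n => ∫⁻ t in Ioo (-1) (T + 1), ∫⁻ x in Q d, ‖mol n f t x - f t x‖ₑ ^ r)
    atTop (𝓝 0)

/-- U4 (150 lines): derivatives of the mollifications from the weak equations with periodic test
functions (test function: `FUND.pext` of the translated bump; the cube centred at `x`; U2; the rest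
is a copy of `Helper87/ND/MOLD.lean`). -/
def S_U4 : Prop := ∀ (r r' d : ℕ) (T : ℝ) (D F : ℝ → (Fin d → ℝ) → ℝ), (r = 1 ∨ r = 2) →
  (r' = 1 ∨ r' = 2) → 0 < T → PL r T D → PL r' T F →
  ((∀ f : ℝ → (Fin d → ℝ) → ℝ, IsTest T f →
    ∫ t in Ioo 0 T, ∫ x in Q d, D t x * (dt f t x + lap (f t) x)
      = ∫ t in Ioo 0 T, ∫ x in Q d, F t x * f t x) →
    ∀ (n : ℕ) t x, t + 1 / (4 * ((n : ℝ) + 1)) < T →
      dt (mol n D) t x = lap (mol n D t) x - mol n F t x) ∧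
  (∀ i : Fin d, (∀ f : ℝ → (Fin d → ℝ) → ℝ, IsTest T f →
    ∫ t in Ioo 0 T, ∫ x in Q d, D t x * pd i (f t) x
      = - ∫ t in Ioo 0 T, ∫ x in Q d, F t x * f t x) →
    ∀ (n : ℕ) t x, t + 1 / (4 * ((n : ℝ) + 1)) < T → pd i (mol n D t) x = mol n F t x)

/-- U5 (60 lines): the weak gradient may be tested with functions which do not vanish near `t = 0`
(cutoff in time as in `Helper75/ND/DIV2.lean`). -/
def S_U5 : Prop := ∀ (d : ℕ) (T : ℝ) (u G : ℝ → (Fin d → ℝ) → ℝ) (i : Fin d), 0 < T →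
  PL 2 T u → PL 2 T G →
  (∀ f : ℝ → (Fin d → ℝ) → ℝ, IsTest0 T f → ∫ t in Ioo 0 T, ∫ x in Q d, u t x * pd i (f t) x
      = - ∫ t in Ioo 0 T, ∫ x in Q d, G t x * f t x) →
  ∀ f : ℝ → (Fin d → ℝ) → ℝ, IsTest T f → ∫ t in Ioo 0 T, ∫ x in Q d, u t x * pd i (f t) x
      = - ∫ t in Ioo 0 T, ∫ x in Q d, G t x * f t x

/-- U6 (100 lines): the drift term (the test function `mol n u * f` in `S_DIV2`, then
`mol n u → u`, `mol n G_i → G_i` in `L²` by U3; U4 gives `pd i (mol n u t) = mol n G_i t`). -/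
def S_U6 : Prop := ∀ (d : ℕ) (T : ℝ) (p : ℝ≥0∞) (b : ℝ → (Fin d → ℝ) → (Fin d → ℝ))
  (u : ℝ → (Fin d → ℝ) → ℝ) (G : Fin d → ℝ → (Fin d → ℝ) → ℝ), 0 < T → Drift d T p b →
  (∫⁻ t in Ioo 0 T, ∫⁻ x in Q d, ‖b t x‖ₑ ^ 2) < ⊤ → PL 2 T u → (∀ i, PL 2 T (G i)) →
  (∀ i, ∀ f : ℝ → (Fin d → ℝ) → ℝ, IsTest T f →
    ∫ t in Ioo 0 T, ∫ x in Q d, u t x * pd i (f t) x
      = - ∫ t in Ioo 0 T, ∫ x in Q d, G i t x * f t x) →
  ∀ f : ℝ → (Fin d → ℝ) → ℝ, IsTest T f →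
    ∫ t in Ioo 0 T, ∫ x in Q d, u t x * ∑ i, b t x i * pd i (f t) x
      = - ∫ t in Ioo 0 T, ∫ x in Q d, (∑ i, b t x i * G i t x) * f t x

end

end Pool.Agent.Helper18.ND
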